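import Mathlib

section

set_option autoImplicit false
open Finset AddMonoidAlgebra

namespace Pool.Agent.MP_dcfa1b_co.Sp

section lin
variable {K : Type*} [CommRing K] {G G' : Type*}

/-- the linear map on the group ring with prescribed values on the group -/
noncomputable def lin {T : Type*} [AddCommGroup T] [Module K T] (F : G → T) :
    AddMonoidAlgebra K G →ₗ[K] T :=
  (Finsupp.linearCombination K F).comp (coeffLinearEquiv K).toLinearMap

@[simp] lemma lin_single {T : Type*} [AddCommGroup T] [Module K T] (F : G → T) (a : G) (b : K) :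
    lin F (single a b) = b • F a := by
  simp [lin]

lemma lin_ext {T : Type*} [AddCommGroup T] (φ ψ : AddMonoidAlgebra K G →+ T)
    (h : ∀ a b, φ (single a b) = ψ (single a b)) (x : AddMonoidAlgebra K G) : φ x = ψ x := by
  induction x using AddMonoidAlgebra.induction_linear with
  | zero => simp
  | add x y hx hy => rw [map_add, map_add, hx, hy]
  | single a b => exact h a b

/-- the derivation attached to an additive function on the group -/
noncomputable def th (lam : G → K) : AddMonoidAlgebra K G →ₗ[K] AddMonoidAlgebra K G :=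
  lin (fun g => single g (lam g))

@[simp] lemma th_single (lam : G → K) (a : G) (b : K) :
    th lam (single a b) = single a (b * lam a) := by
  simp [th]

variable [AddCommGroup G] [AddCommGroup G']

lemma th_mul (lam : G →+ K) (x y : AddMonoidAlgebra K G) :
    th lam (x * y) = th lam x * y + x * th lam y := by
  induction x using AddMonoidAlgebra.induction_linear with
  | zero => simp
  | add x x' hx hx' => rw [add_mul, map_add, map_add, hx, hx']; ring
  | single a b =>
    induction y using AddMonoidAlgebra.induction_linear with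
    | zero => simp
    | add y y' hy hy' => rw [mul_add, map_add, map_add, hy, hy']; ring
    | single c d =>
      simp only [single_mul_single, th_single, map_add, ← single_add]
      congr 1; ring

omit [AddCommGroup G] in
lemma th_comm (l1 l2 : G → K) (x : AddMonoidAlgebra K G) :
    th l1 (th l2 x) = th l2 (th l1 x) := by
  induction x using AddMonoidAlgebra.induction_linear with
  | zero => simp
  | add x x' hx hx' => simp only [map_add, hx, hx']
  | single a b => simp only [th_single]; congr 1; ring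

/-- push forward along a homomorphism of groups -/
noncomputable def pf (K : Type*) [CommRing K] (ρ : G →+ G') :
    AddMonoidAlgebra K G →ₐ[K] AddMonoidAlgebra K G' := mapDomainAlgHom K K ρ

@[simp] lemma pf_single (ρ : G →+ G') (a : G) (b : K) :
    pf K ρ (single a b) = single (ρ a) b := by
  simp [pf]

lemma th_pf (ρ : G →+ G') (lam : G' → K) (x : AddMonoidAlgebra K G) :
    th lam (pf K ρ x) = pf K ρ (th (fun g => lam (ρ g)) x) := by
  induction x using AddMonoidAlgebra.induction_linear with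
  | zero => simp
  | add x x' hx hx' => simp only [map_add, hx, hx']
  | single a b => simp

lemma th_lin (l l1 l2 : G → K) (a b : K) (h : ∀ g, l g = a * l1 g + b * l2 g)
    (x : AddMonoidAlgebra K G) : th l x = a • th l1 x + b • th l2 x := by
  induction x using AddMonoidAlgebra.induction_linear with
  | zero => simp
  | add x x' hx hx' => simp only [map_add, hx, hx', smul_add]; abel
  | single c d =>
    simp only [th_single, smul_single, smul_eq_mul, ← single_add, h]
    congr 1; ring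

/-- logarithmic derivative -/
noncomputable def ld (lam : G → K) (x : AddMonoidAlgebra K G) : AddMonoidAlgebra K G :=
  th lam x * Ring.inverse x

lemma ld_spec (lam : G → K) {x : AddMonoidAlgebra K G} (hx : IsUnit x) :
    x * ld lam x = th lam x := by
  rw [ld, mul_left_comm, Ring.mul_inverse_cancel x hx, mul_one]

lemma ld_eq (lam : G → K) {x y : AddMonoidAlgebra K G} (hx : IsUnit x)
    (h : x * y = th lam x) : ld lam x = y :=
  hx.mul_left_cancel (by rw [ld_spec lam hx, h])

lemma ld_mul (lam : G →+ K) {x y : AddMonoidAlgebra K G} (hx : IsUnit x) (hy : IsUnit y) :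
    ld lam (x * y) = ld lam x + ld lam y := by
  apply ld_eq _ (hx.mul hy)
  rw [th_mul, ← ld_spec lam hx, ← ld_spec lam hy]; ring

lemma ld_one (lam : G →+ K) : ld lam (1 : AddMonoidAlgebra K G) = 0 := by
  apply ld_eq _ isUnit_one
  rw [mul_zero, one_def, th_single, map_zero, mul_zero, single_zero]

lemma ld_prod {ι : Type*} (lam : G →+ K) (s : Finset ι) (x : ι → AddMonoidAlgebra K G)
    (hx : ∀ i ∈ s, IsUnit (x i)) : ld lam (∏ i ∈ s, x i) = ∑ i ∈ s, ld lam (x i) := by
  classical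
  induction s using Finset.induction_on with
  | empty => simp [ld_one]
  | insert a s ha ih =>
    rw [prod_insert ha, sum_insert ha, ld_mul lam (hx a (mem_insert_self _ _))
      (IsUnit.prod_iff.2 fun i hi => hx i (mem_insert_of_mem hi)),
      ih fun i hi => hx i (mem_insert_of_mem hi)]

lemma ld_pf (ρ : G →+ G') (lam : G' → K) {x : AddMonoidAlgebra K G} (hx : IsUnit x) :
    ld lam (pf K ρ x) = pf K ρ (ld (fun g => lam (ρ g)) x) := by
  apply ld_eq _ (hx.map _)
  rw [← map_mul, ld_spec _ hx, th_pf]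

lemma ld_lin (l l1 l2 : G → K) (a b : K) (h : ∀ g, l g = a * l1 g + b * l2 g)
    (x : AddMonoidAlgebra K G) : ld l x = a • ld l1 x + b • ld l2 x := by
  rw [ld, ld, ld, th_lin l l1 l2 a b h, add_mul, smul_mul_assoc, smul_mul_assoc]

lemma ld_symm (l1 l2 : G →+ K) {x : AddMonoidAlgebra K G} (hx : IsUnit x) :
    th l2 (ld l1 x) = th l1 (ld l2 x) := by
  have h1 := congrArg (th l2) (ld_spec l1 hx)
  have h2 := congrArg (th l1) (ld_spec l2 hx)
  rw [th_mul] at h1 h2
  rw [th_comm] at h1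
  apply hx.mul_left_cancel
  have h3 := ld_spec l1 hx
  have h4 := ld_spec l2 hx
  linear_combination h1 - h2 + ld l1 x * h4 - ld l2 x * h3

end lin

section nu
variable {K : Type*} [CommRing K] {G : Type*} [AddCommGroup G] [Fintype G]

/-- the sum of all group elements -/
noncomputable def nu (K : Type*) [CommRing K] (G : Type*) [Fintype G] : AddMonoidAlgebra K G :=
  ∑ g, single g 1

/-- augmentation -/
noncomputable def aug : AddMonoidAlgebra K G →ₗ[K] K := lin (fun _ => 1)

omit [AddCommGroup G] [Fintype G] in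
@[simp] lemma aug_single (a : G) (b : K) : aug (single a b) = b := by simp [aug]

lemma mul_nu (x : AddMonoidAlgebra K G) : x * nu K G = aug x • nu K G := by
  induction x using AddMonoidAlgebra.induction_linear with
  | zero => simp
  | add x x' hx hx' => rw [add_mul, map_add, add_smul, hx, hx']
  | single a b =>
    simp only [nu, mul_sum, single_mul_single, aug_single, smul_sum, smul_single, smul_eq_mul]
    exact Fintype.sum_equiv (Equiv.addLeft a) _ _ (fun _ => rfl)

omit [AddCommGroup G] in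
lemma aug_nu : aug (nu K G) = Fintype.card G := by
  simp [nu, map_sum]

lemma pf_nu (ρ : G →+ G) (h : Function.Bijective ρ) : pf K ρ (nu K G) = nu K G := by
  simp only [nu, map_sum, pf_single]
  exact Fintype.sum_bijective ρ h _ _ (fun _ => rfl)

end nu

variable {l : ℕ} [Fact l.Prime]

lemma unit_of_aug {G : Type*} [AddCommGroup G] (hG : ∀ g : G, l • g = 0)
    (x : AddMonoidAlgebra (ZMod l) G) (hx : aug x ≠ 0) : IsUnit x := by
  have : CharP (AddMonoidAlgebra (ZMod l) G) l :=
    charP_of_injective_algebraMap (algebraMap (ZMod l) _).injective l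
  have key : ∀ y : AddMonoidAlgebra (ZMod l) G, y ^ l = single 0 (aug y) := by
    intro y
    induction y using AddMonoidAlgebra.induction_linear with
    | zero => simp [(Fact.out : l.Prime).ne_zero]
    | add y y' hy hy' => rw [add_pow_char, hy, hy', map_add, single_add]
    | single a b => rw [single_pow, hG, ZMod.pow_card, aug_single]
  rw [← isUnit_pow_iff (Fact.out : l.Prime).ne_zero, key]
  refine IsUnit.of_mul_eq_one (single 0 (aug x)⁻¹) ?_
  rw [single_mul_single, mul_inv_cancel₀ hx, add_zero, one_def]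

/-- moments -/
noncomputable def mu (k : ℕ) : AddMonoidAlgebra (ZMod l) (ZMod l) →ₗ[ZMod l] ZMod l :=
  lin (fun i => i ^ k)

@[simp] lemma mu_single (k : ℕ) (a b : ZMod l) : mu k (single a b) = b * a ^ k := by simp [mu]

/-- Kummer's logarithmic derivative of order `k + 1` -/
noncomputable def kc (k : ℕ) (x : AddMonoidAlgebra (ZMod l) (ZMod l)) : ZMod l :=
  mu k (ld (AddMonoidHom.id (ZMod l)) x)

lemma kc_mul (k : ℕ) {x y : AddMonoidAlgebra (ZMod l) (ZMod l)} (hx : IsUnit x) (hy : IsUnit y) :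
    kc k (x * y) = kc k x + kc k y := by
  rw [kc, ld_mul _ hx hy, map_add]; rfl

lemma kc_prod {ι : Type*} (k : ℕ) (s : Finset ι) (x : ι → AddMonoidAlgebra (ZMod l) (ZMod l))
    (hx : ∀ i ∈ s, IsUnit (x i)) : kc k (∏ i ∈ s, x i) = ∑ i ∈ s, kc k (x i) := by
  rw [kc, ld_prod _ s x hx, map_sum]; rfl

lemma mu_pf (k : ℕ) (u : ZMod l) (y : AddMonoidAlgebra (ZMod l) (ZMod l)) :
    mu k (pf (ZMod l) (AddMonoidHom.mulLeft u) y) = u ^ k * mu k y := by
  induction y using AddMonoidAlgebra.induction_linear with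
  | zero => simp
  | add x x' hx hx' => simp only [map_add, hx, hx', mul_add]
  | single a b => simp [mul_pow]; ring

lemma kc_sig (k : ℕ) (u : ZMod l) {x : AddMonoidAlgebra (ZMod l) (ZMod l)} (hx : IsUnit x) :
    kc k (pf (ZMod l) (AddMonoidHom.mulLeft u) x) = u ^ (k + 1) * kc k x := by
  rw [kc, ld_pf _ _ hx, mu_pf,
    ld_lin _ (AddMonoidHom.id (ZMod l)) (AddMonoidHom.id (ZMod l)) u 0 (by simp), zero_smul,
    add_zero, map_smul, kc, smul_eq_mul]
  ring

lemma psum (j : ℕ) (hj : j + 1 < l) : ∑ x : ZMod l, x ^ j = 0 :=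
  FiniteField.sum_pow_lt_card_sub_one _ j (by rw [ZMod.card]; omega)

lemma mu_nu (k : ℕ) (hk : k + 1 < l) : mu k (nu (ZMod l) (ZMod l)) = 0 := by
  simp [nu, map_sum, psum k hk]

lemma mu_th (k : ℕ) (y : AddMonoidAlgebra (ZMod l) (ZMod l)) :
    mu k (th (AddMonoidHom.id (ZMod l)) y) = mu (k + 1) y := by
  induction y using AddMonoidAlgebra.induction_linear with
  | zero => simp
  | add x x' hx hx' => simp only [map_add, hx, hx']
  | single a b => simp [pow_succ]; ring

lemma nu_sq : nu (ZMod l) (ZMod l) * nu (ZMod l) (ZMod l) = 0 := by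
  rw [mul_nu, aug_nu, ZMod.card, ZMod.natCast_self, zero_smul]

lemma unit_nu (c : ZMod l) : IsUnit (1 + c • nu (ZMod l) (ZMod l)) := by
  refine IsUnit.of_mul_eq_one (1 - c • nu (ZMod l) (ZMod l)) ?_
  have := nu_sq (l := l)
  simp only [Algebra.smul_def]
  linear_combination (-(algebraMap (ZMod l) _ c) ^ 2) * this

lemma unit_single (a b : ZMod l) (hb : b ≠ 0) : IsUnit (single a b) := by
  refine IsUnit.of_mul_eq_one (single (-a) b⁻¹) ?_
  rw [single_mul_single, mul_inv_cancel₀ hb, add_neg_cancel, one_def]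

lemma fac_nu (a b c : ZMod l) (hb : b ≠ 0) : single a b + c • nu (ZMod l) (ZMod l) =
    single a b * (1 + (c * b⁻¹) • nu (ZMod l) (ZMod l)) := by
  rw [mul_add, mul_one, mul_smul_comm, mul_nu, aug_single, smul_smul, mul_assoc,
    inv_mul_cancel₀ hb, mul_one]

lemma unit_triv (a b c : ZMod l) (hb : b ≠ 0) :
    IsUnit (single a b + c • nu (ZMod l) (ZMod l)) := by
  rw [fac_nu a b c hb]; exact (unit_single a b hb).mul (unit_nu _)

lemma kc_triv (k : ℕ) (hk : 1 ≤ k) (hk2 : k + 2 < l) (a b c : ZMod l) (hb : b ≠ 0) :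
    kc k (single a b + c • nu (ZMod l) (ZMod l)) = 0 := by
  rw [fac_nu a b c hb, kc_mul k (unit_single a b hb) (unit_nu _)]
  have h1 : kc k (single a b) = 0 := by
    rw [kc, ld_eq _ (unit_single a b hb) (y := single 0 a) (by simp [single_mul_single])]
    simp [show k ≠ 0 by omega]
  have h0 : aug (th (AddMonoidHom.id (ZMod l)) (nu (ZMod l) (ZMod l))) = 0 := by
    have := psum (l := l) 1 (by omega)
    simpa [nu, map_sum] using this
  have h2 : ∀ c : ZMod l, kc k (1 + c • nu (ZMod l) (ZMod l)) = 0 := by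
    intro c
    rw [kc, ld_eq _ (unit_nu c) (y := c • th (AddMonoidHom.id (ZMod l)) (nu (ZMod l) (ZMod l)))]
    · rw [map_smul, mu_th, mu_nu _ (by omega), smul_zero]
    · rw [add_mul, one_mul, smul_mul_smul_comm, mul_comm (nu _ _), mul_nu, h0, zero_smul,
        smul_zero, add_zero, map_add, map_smul, one_def, th_single]
      simp
  rw [h1, h2, add_zero]

lemma psum_top : ∑ x : ZMod l, x ^ (l - 1) = -1 := by
  have hl := (Fact.out : l.Prime).two_le
  rw [← add_sum_erase _ _ (mem_univ (0 : ZMod l)), zero_pow (by omega), zero_add,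
    sum_congr rfl (fun x hx => ZMod.pow_card_sub_one_eq_one (ne_of_mem_erase hx)), sum_const,
    card_erase_of_mem (mem_univ _), card_univ, ZMod.card, nsmul_eq_mul, mul_one,
    Nat.cast_sub (by omega), ZMod.natCast_self]
  simp

lemma bsum0 (e k : ℕ) (h : e + k + 1 < l) (u w : ZMod l) :
    ∑ a : ZMod l, a ^ e * (a * w + u) ^ k = 0 := by
  simp only [add_pow, mul_sum]
  rw [sum_comm]
  refine sum_eq_zero fun j hj => ?_
  have hj' := mem_range.1 hj
  have := psum (l := l) (e + j) (by omega)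
  calc _ = ∑ a : ZMod l, a ^ (e + j) * (w ^ j * u ^ (k - j) * (k.choose j : ZMod l)) :=
        sum_congr rfl fun a _ => by ring
    _ = 0 := by rw [← sum_mul, this, zero_mul]

lemma bsum2 (k : ℕ) (h : k + 1 < l) (u w : ZMod l) :
    ∑ a : ZMod l, a ^ (l - 1) * (a * w + u) ^ k = - u ^ k := by
  have h0 := bsum0 (l := l) 0 k (by omega) u w
  rw [← add_sum_erase _ _ (mem_univ (0 : ZMod l))] at h0 ⊢
  rw [sum_congr rfl (fun x hx => by rw [ZMod.pow_card_sub_one_eq_one (ne_of_mem_erase hx)])]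
  simp only [pow_zero, one_mul, zero_mul, zero_add] at h0 ⊢
  rw [zero_pow (by omega)]
  linear_combination h0

lemma bsum1 (k : ℕ) (hk : 1 ≤ k) (h : k + 1 < l) (u w : ZMod l) :
    ∑ a : ZMod l, a ^ (l - 2) * (a * w + u) ^ k = - (k * u ^ (k - 1) * w) := by
  simp only [add_pow, mul_sum]
  rw [sum_comm, sum_eq_single 1]
  · calc _ = ∑ a : ZMod l, a ^ (l - 1) * (w * u ^ (k - 1) * (k : ZMod l)) :=
        sum_congr rfl fun a _ => by
          rw [show l - 1 = l - 2 + 1 by omega, Nat.choose_one_right]; ring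
      _ = _ := by rw [← sum_mul, psum_top]; ring
  · intro j hj hj1
    have hj' := mem_range.1 hj
    have : ∑ a : ZMod l, a ^ (l - 2 + j) = 0 := by
      rcases Nat.eq_zero_or_pos j with rfl | hj0
      · exact psum _ (by omega)
      · rw [← psum (l := l) (j - 1) (by omega)]
        refine sum_congr rfl fun a _ => ?_
        rw [show l - 2 + j = l + (j - 2) by omega, pow_add, ZMod.pow_card, ← pow_succ',
          show j - 2 + 1 = j - 1 by omega]
    calc _ = ∑ a : ZMod l, a ^ (l - 2 + j) * (w ^ j * u ^ (k - j) * (k.choose j : ZMod l)) :=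
          sum_congr rfl fun a _ => by ring
      _ = 0 := by rw [← sum_mul, this, zero_mul]
  · intro h1
    exact absurd (mem_range.2 (by omega)) h1

/-- the linear form `(x, y) ↦ a x + b y` -/
def rho (a b : ZMod l) : ZMod l × ZMod l →+ ZMod l where
  toFun g := a * g.1 + b * g.2
  map_zero' := by simp
  map_add' x y := by simp only [Prod.fst_add, Prod.snd_add]; ring

@[simp] lemma rho_apply (a b : ZMod l) (g : ZMod l × ZMod l) : rho a b g = a * g.1 + b * g.2 := rfl

lemma kc_rho (k : ℕ) (a b : ZMod l) {D : AddMonoidAlgebra (ZMod l) (ZMod l × ZMod l)}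
    (hD : IsUnit D) : kc k (pf (ZMod l) (rho a b) D) =
      a * mu k (pf (ZMod l) (rho a b) (ld (AddMonoidHom.fst _ _) D)) +
      b * mu k (pf (ZMod l) (rho a b) (ld (AddMonoidHom.snd _ _) D)) := by
  rw [kc, ld_pf _ _ hD, ld_lin _ (AddMonoidHom.fst _ _) (AddMonoidHom.snd _ _) a b (by simp)]
  simp only [map_add, map_smul, smul_eq_mul]

lemma sum_kc_rho (k : ℕ) (hk : k + 2 < l) (b : ZMod l)
    {D : AddMonoidAlgebra (ZMod l) (ZMod l × ZMod l)} (hD : IsUnit D) :
    ∑ a, kc k (pf (ZMod l) (rho a b) D) = 0 := by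
  have key : ∀ e, e ≤ 1 → ∀ y : AddMonoidAlgebra (ZMod l) (ZMod l × ZMod l),
      ∑ a, a ^ e * mu k (pf (ZMod l) (rho a b) y) = 0 := by
    intro e he y
    induction y using AddMonoidAlgebra.induction_linear with
    | zero => simp
    | add x x' hx hx' => simp only [map_add, mul_add, sum_add_distrib, hx, hx', add_zero]
    | single g c =>
      simp only [pf_single, mu_single, rho_apply, mul_left_comm _ c]
      rw [← mul_sum, bsum0 e k (by omega), mul_zero]
  simp only [kc_rho k _ _ hD, sum_add_distrib]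
  have h1 := key 1 le_rfl (ld (AddMonoidHom.fst _ _) D)
  have h2 := key 0 zero_le_one (ld (AddMonoidHom.snd _ _) D)
  simp only [pow_one, pow_zero, one_mul] at h1 h2
  rw [h1, ← mul_sum, h2, mul_zero, add_zero]

lemma coef_kc_rho (k : ℕ) (hk1 : 1 ≤ k) (hk : k + 1 < l)
    {D : AddMonoidAlgebra (ZMod l) (ZMod l × ZMod l)} (hD : IsUnit D) (c : ZMod l)
    (h1 : pf (ZMod l) (rho 1 0) D = single 0 (-1) + c • nu (ZMod l) (ZMod l)) :
    ∑ b, b ^ (l - 2) * kc k (pf (ZMod l) (rho 1 b) D) =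
      (k + 1) * mu k (pf (ZMod l) (rho 1 0) (th (AddMonoidHom.snd _ _) D)) := by
  have k1 : ∀ y : AddMonoidAlgebra (ZMod l) (ZMod l × ZMod l),
      ∑ b, b ^ (l - 2) * mu k (pf (ZMod l) (rho 1 b) y) =
        -(k * mu (k - 1) (pf (ZMod l) (rho 1 0) (th (AddMonoidHom.snd _ _) y))) := by
    intro y
    induction y using AddMonoidAlgebra.induction_linear with
    | zero => simp
    | add x x' hx hx' => simp only [map_add, mul_add, sum_add_distrib, hx, hx']; ring
    | single g c =>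
      simp only [pf_single, mu_single, rho_apply, mul_left_comm _ c, th_single, one_mul,
        add_comm g.1]
      rw [← mul_sum, bsum1 k hk1 hk]
      simp only [AddMonoidHom.coe_snd]
      ring
  have k2 : ∀ y : AddMonoidAlgebra (ZMod l) (ZMod l × ZMod l),
      ∑ b, b ^ (l - 1) * mu k (pf (ZMod l) (rho 1 b) y) =
        -(mu k (pf (ZMod l) (rho 1 0) y)) := by
    intro y
    induction y using AddMonoidAlgebra.induction_linear with
    | zero => simp
    | add x x' hx hx' => simp only [map_add, mul_add, sum_add_distrib, hx, hx']; ring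
    | single g c =>
      simp only [pf_single, mu_single, rho_apply, mul_left_comm _ c, one_mul, add_comm g.1]
      rw [← mul_sum, bsum2 k hk]
      ring
  have k3 : ∀ y : AddMonoidAlgebra (ZMod l) (ZMod l × ZMod l),
      mu (k - 1) (pf (ZMod l) (rho 1 0) (th (AddMonoidHom.fst _ _) y)) =
        mu k (pf (ZMod l) (rho 1 0) y) := by
    intro y
    induction y using AddMonoidAlgebra.induction_linear with
    | zero => simp
    | add x x' hx hx' => simp only [map_add, hx, hx']
    | single g c =>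
      obtain ⟨k, rfl⟩ : ∃ j, k = j + 1 := ⟨k - 1, by omega⟩
      simp [pow_succ]; ring
  have k4 : mu k (pf (ZMod l) (rho 1 0) (th (AddMonoidHom.snd _ _) D)) =
      - mu k (pf (ZMod l) (rho 1 0) (ld (AddMonoidHom.snd _ _) D)) := by
    rw [← ld_spec _ hD, map_mul, h1, add_mul, smul_mul_assoc, mul_comm (nu _ _), mul_nu, map_add,
      map_smul, map_smul, mu_nu k hk, single_neg, ← one_def]
    simp
  simp only [kc_rho k _ _ hD, mul_add, sum_add_distrib, one_mul, ← mul_assoc, ← pow_succ]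
  rw [show l - 2 + 1 = l - 1 by omega, k1, k2, ld_symm _ _ hD, k3, k4]
  ring

end Pool.Agent.MP_dcfa1b_co.Sp

end

section

set_option autoImplicit false
open Finset AddMonoidAlgebra

namespace Pool.Agent.MP_dcfa1b_co.Sp

variable {l : ℕ} [Fact l.Prime]

/-- the integral group ring of the cyclic group of order `l` -/
abbrev RR (l : ℕ) : Type := AddMonoidAlgebra ℤ (ZMod l)

/-- the Galois action -/
noncomputable def sig (u : ZMod l) : RR l →ₐ[ℤ] RR l := pf ℤ (AddMonoidHom.mulLeft u)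

@[simp] lemma sig_single (u a : ZMod l) (b : ℤ) : sig u (single a b) = single (u * a) b := by
  simp [sig]

lemma sig_sig (u v : ZMod l) (x : RR l) : sig u (sig v x) = sig (u * v) x := by
  induction x using AddMonoidAlgebra.induction_linear with
  | zero => simp
  | add x x' hx hx' => simp only [map_add, hx, hx']
  | single a b => simp [mul_assoc]

lemma sig_one (x : RR l) : sig 1 x = x := by
  induction x using AddMonoidAlgebra.induction_linear with
  | zero => simp
  | add x x' hx hx' => simp only [map_add, hx, hx']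
  | single a b => simp

lemma sig_nu {u : ZMod l} (hu : u ≠ 0) : sig u (nu ℤ (ZMod l)) = nu ℤ (ZMod l) :=
  pf_nu _ (Equiv.mulLeft₀ u hu).bijective

/-- evaluation at the character `a ↦ ex (t a)` -/
noncomputable def phi {T : Type*} [CommRing T] (ex : AddChar (ZMod l) T) (t : ZMod l) :
    RR l →ₐ[ℤ] T := AddMonoidAlgebra.lift ℤ T (ZMod l) (ex.mulShift t).toMonoidHom

@[simp] lemma phi_single {T : Type*} [CommRing T] (ex : AddChar (ZMod l) T) (t a : ZMod l)
    (b : ℤ) : phi ex t (single a b) = b * ex (t * a) := by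
  simp [phi]

lemma phi_sig {T : Type*} [CommRing T] (ex : AddChar (ZMod l) T) (t u : ZMod l) (x : RR l) :
    phi ex t (sig u x) = phi ex (t * u) x := by
  induction x using AddMonoidAlgebra.induction_linear with
  | zero => simp
  | add x x' hx hx' => simp only [map_add, hx, hx']
  | single a b => simp [mul_assoc]

/-- reduction modulo `l` -/
noncomputable def red (l : ℕ) [Fact l.Prime] (G : Type*) [AddCommGroup G] :
    AddMonoidAlgebra ℤ G →+* AddMonoidAlgebra (ZMod l) G := mapRingHom G (Int.castRingHom _)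

@[simp] lemma red_single {G : Type*} [AddCommGroup G] (a : G) (b : ℤ) :
    red l G (single a b) = single a (b : ZMod l) := by simp [red]

lemma red_pf {G G' : Type*} [AddCommGroup G] [AddCommGroup G'] (ρ : G →+ G')
    (x : AddMonoidAlgebra ℤ G) : red l G' (pf ℤ ρ x) = pf (ZMod l) ρ (red l G x) := by
  induction x using AddMonoidAlgebra.induction_linear with
  | zero => simp
  | add x x' hx hx' => simp only [map_add, hx, hx']
  | single a b => simp

lemma red_nu : red l (ZMod l) (nu ℤ (ZMod l)) = nu (ZMod l) (ZMod l) := by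
  simp [nu, map_sum]

lemma red_triv (a : ZMod l) (b c : ℤ) : red l (ZMod l) (single a b + c • nu ℤ (ZMod l)) =
    single a (b : ZMod l) + (c : ZMod l) • nu (ZMod l) (ZMod l) := by
  rw [map_add, map_zsmul, red_nu, red_single, Int.cast_smul_eq_zsmul]

/-- the projection onto the ring of cyclotomic integers -/
noncomputable def qq (l : ℕ) [Fact l.Prime] : RR l →+* RR l ⧸ Ideal.span {nu ℤ (ZMod l)} :=
  Ideal.Quotient.mk _

lemma qq_eq {x y : RR l} : qq l x = qq l y ↔ ∃ c : ℤ, x = y + c • nu ℤ (ZMod l) := by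
  rw [qq, Ideal.Quotient.eq, Ideal.mem_span_singleton']
  constructor
  · rintro ⟨a, ha⟩
    exact ⟨aug a, by rw [← mul_nu, ha]; ring⟩
  · rintro ⟨c, hc⟩
    exact ⟨c, by rw [hc, zsmul_eq_mul]; ring⟩

lemma qq_nu : qq l (nu ℤ (ZMod l)) = 0 := by
  rw [← map_zero (qq l), qq_eq]; exact ⟨1, by simp⟩

lemma qq_sig {x y : RR l} (h : qq l x = qq l y) {u : ZMod l} (hu : u ≠ 0) :
    qq l (sig u x) = qq l (sig u y) := by
  obtain ⟨c, rfl⟩ := qq_eq.1 h
  exact qq_eq.2 ⟨c, by rw [map_add, map_zsmul, sig_nu hu]⟩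

lemma coeff_nu (i : ZMod l) : (nu ℤ (ZMod l)).coeff i = 1 := by
  simp [nu, Finsupp.single_apply]

lemma qq_cancel {n : ℤ} (hn : n ≠ 0) {x y : RR l} (h : (n : _) * qq l x = n * qq l y) :
    qq l x = qq l y := by
  rw [← map_intCast (qq l), ← map_mul, ← map_mul] at h
  obtain ⟨c, hc⟩ := qq_eq.1 h
  have key : ∀ i, n * x.coeff i = n * y.coeff i + c := by
    intro i
    have := congrArg (fun z : RR l => z.coeff i) hc
    simpa [← zsmul_eq_mul, coeff_nu] using this
  refine qq_eq.2 ⟨x.coeff 0 - y.coeff 0, ?_⟩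
  ext i
  apply mul_left_cancel₀ hn
  simp only [coeff_add, coeff_smul, Finsupp.add_apply, Finsupp.smul_apply, coeff_nu, smul_eq_mul]
  linear_combination key i - key 0

lemma eq_sum_single (x : RR l) : x = ∑ i, single i (x.coeff i) := by
  ext j
  simp

lemma kron_aux {ι : Type*} [Fintype ι] [DecidableEq ι] (U : ι → ℤ) (h2 : 2 ≤ Fintype.card ι)
    (h : Fintype.card ι * ∑ i, U i ^ 2 - (∑ i, U i) ^ 2 = Fintype.card ι - 1) :
    ∃ (a : ι) (b c : ℤ), (b = 1 ∨ b = -1) ∧ ∀ i, U i = (if a = i then b else 0) + c := by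
  have tot : ∑ i, ∑ j, (U j - U i) ^ 2 = 2 * ((Fintype.card ι : ℤ) - 1) := by
    rw [← h]
    simp only [sub_sq, sum_add_distrib, sum_sub_distrib, sum_const, card_univ, nsmul_eq_mul,
      ← sum_mul, ← mul_sum]
    ring
  obtain ⟨i, -, hi⟩ : ∃ i ∈ (univ : Finset ι), ∑ j, (U j - U i) ^ 2 < 2 := by
    apply exists_lt_of_sum_lt
    rw [tot, sum_const, card_univ, nsmul_eq_mul]
    omega
  obtain ⟨a, ha⟩ : ∃ a, U a ≠ U i := by
    by_contra hh
    push Not at hh
    simp only [hh, sub_self] at tot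
    simp at tot
    omega
  rw [← add_sum_erase _ _ (mem_univ a)] at hi
  have p1 : 0 < (U a - U i) ^ 2 := by have := sub_ne_zero.2 ha; positivity
  have p2 : 0 ≤ ∑ j ∈ univ.erase a, (U j - U i) ^ 2 := sum_nonneg fun _ _ => sq_nonneg _
  have p3 : ∑ j ∈ univ.erase a, (U j - U i) ^ 2 = 0 := by omega
  have p4 : (U a - U i) ^ 2 = 1 := by omega
  rw [sum_eq_zero_iff_of_nonneg fun _ _ => sq_nonneg _] at p3
  refine ⟨a, U a - U i, U i, mul_self_eq_one_iff.1 (by rw [← sq, p4]), fun j => ?_⟩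
  split_ifs with hj
  · rw [hj]; ring
  · have := p3 j (mem_erase.2 ⟨fun e => hj e.symm, mem_univ _⟩)
    have := pow_eq_zero_iff (two_ne_zero) |>.1 this
    omega

lemma kron {u : RR l} (h : qq l (u * sig (-1) u) = 1) :
    ∃ (a : ZMod l) (b c : ℤ), (b = 1 ∨ b = -1) ∧ u = single a b + c • nu ℤ (ZMod l) := by
  rw [← map_one (qq l)] at h
  obtain ⟨k, hk⟩ := qq_eq.1 h
  have e : u * sig (-1) u = ∑ i, ∑ j, single (i - j) (u.coeff i * u.coeff j) := by
    conv_lhs => rw [eq_sum_single u]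
    simp only [map_sum, sig_single, sum_mul_sum, single_mul_single, neg_one_mul, sub_eq_add_neg]
  rw [e] at hk
  have h1 := congrArg (fun z : RR l => z.coeff 0) hk
  have h2 := congrArg (fun z : RR l => aug z) hk
  simp only [coeff_sum, coeff_single, Finsupp.finsetSum_apply, Finsupp.single_apply, sub_eq_zero,
    sum_ite_eq, mem_univ, if_true, coeff_add, coeff_smul, Finsupp.add_apply, Finsupp.smul_apply,
    coeff_nu, one_def, smul_eq_mul] at h1
  simp only [map_sum, aug_single, map_add, map_smul, aug_nu, one_def, smul_eq_mul,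
    ← sum_mul_sum] at h2
  obtain ⟨a, b, c, hb, hc⟩ := kron_aux (fun i => u.coeff i)
    (by rw [ZMod.card]; exact (Fact.out : l.Prime).two_le)
    (by simp only [sq]; rw [h1, h2]; ring)
  refine ⟨a, b, c, hb, ?_⟩
  ext i
  simp only [coeff_add, coeff_smul, Finsupp.add_apply, Finsupp.smul_apply, coeff_nu, coeff_single,
    Finsupp.single_apply, smul_eq_mul, mul_one, hc i]

variable {p : ℕ} [Fact p.Prime] {ex : AddChar (ZMod l) (ZMod p)}

lemma phi_nu (hex : ex.IsPrimitive) {t : ZMod l} (ht : t ≠ 0) :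
    phi ex t (nu ℤ (ZMod l)) = 0 := by
  have := AddChar.sum_mulShift t hex
  simp only [ht, if_false, Nat.cast_zero] at this
  simpa [nu, map_sum, mul_comm t] using this

lemma phi_qq (hex : ex.IsPrimitive) {t : ZMod l} (ht : t ≠ 0) {x y : RR l}
    (h : qq l x = qq l y) : phi ex t x = phi ex t y := by
  obtain ⟨c, rfl⟩ := qq_eq.1 h
  rw [map_add, map_zsmul, phi_nu hex ht, smul_zero, add_zero]

lemma ex_inj (hex : ex.IsPrimitive) : Function.Injective ex := by
  intro a b h
  have : ex (a - b) = 1 := by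
    have h0 : ex b ≠ 0 := (ex.val_isUnit b).ne_zero
    apply mul_right_cancel₀ h0
    rw [← AddChar.map_add_eq_mul, sub_add_cancel, h, one_mul]
  exact sub_eq_zero.1 ((hex.zmod_char_eq_one_iff l _).1 this)

lemma level_one (hex : ex.IsPrimitive) (hlp : (l : ZMod p) ≠ 0) {x : RR l}
    (h : ∀ t, t ≠ 0 → phi ex t x = 0) : ∃ y, qq l x = p * qq l y := by
  have key : ∀ i, (l : ZMod p) * x.coeff i = phi ex 0 x := by
    intro i
    have e1 : ∑ t, ex (t * (-i)) * phi ex t x = phi ex 0 x := by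
      rw [sum_eq_single 0 (fun t _ ht => by rw [h t ht, mul_zero]) (by simp)]
      simp
    rw [← e1]
    conv_rhs => rw [eq_sum_single x]
    simp only [map_sum, phi_single, mul_sum]
    rw [sum_comm]
    have e2 : ∀ j, ∑ t, ex (t * (-i)) * ((x.coeff j : ZMod p) * ex (t * j)) =
        if i = j then (l : ZMod p) * x.coeff j else 0 := by
      intro j
      have := AddChar.sum_mulShift (j - i) hex
      calc _ = (∑ t, ex (t * (j - i))) * (x.coeff j : ZMod p) := by
            rw [sum_mul]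
            refine sum_congr rfl fun t _ => ?_
            rw [show t * (j - i) = t * (-i) + t * j by ring, AddChar.map_add_eq_mul]; ring
        _ = _ := by
            rw [this, ZMod.card]
            by_cases hij : i = j
            · simp [hij]
            · simp [hij, sub_eq_zero, Ne.symm hij]
    simp only [e2, sum_ite_eq, mem_univ, if_true]
  have dv : ∀ i, ∃ z : ℤ, x.coeff i - x.coeff 0 = p * z := by
    intro i
    apply (ZMod.intCast_zmod_eq_zero_iff_dvd _ p).1
    apply mul_left_cancel₀ hlp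
    push_cast
    linear_combination key i - key 0
  choose z hz using dv
  refine ⟨∑ i, single i (z i), ?_⟩
  rw [← map_natCast (qq l), ← map_mul]
  refine qq_eq.2 ⟨x.coeff 0, ?_⟩
  ext i
  simp only [← nsmul_eq_mul, coeff_add, coeff_smul, Finsupp.add_apply, Finsupp.smul_apply,
    coeff_nu, coeff_sum, coeff_single, Finsupp.finsetSum_apply, Finsupp.single_apply,
    sum_ite_eq', mem_univ, if_true, smul_eq_mul]
  rw [nsmul_eq_mul]
  linear_combination hz i

/-- the primes above `p` -/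
noncomputable def PP (ex : AddChar (ZMod l) (ZMod p)) (t : ZMod l) : Ideal (RR l) :=
  RingHom.ker (phi ex t)

lemma mem_PP {t : ZMod l} {x : RR l} : x ∈ PP ex t ↔ phi ex t x = 0 := RingHom.mem_ker

lemma PP_cop (hex : ex.IsPrimitive) {s t : ZMod l} (h : s ≠ t) :
    IsCoprime (PP ex s) (PP ex t) := by
  have mx : ∀ t, (PP ex t).IsMaximal := fun t =>
    RingHom.ker_isMaximal_of_surjective (phi ex t) (ZMod.ringHom_surjective (phi ex t).toRingHom)
  rw [Ideal.isCoprime_iff_sup_eq]
  refine (mx s).coprime_of_ne (mx t) fun e => h (ex_inj hex ?_)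
  have : (single 1 1 - ((ex t).val : RR l)) ∈ PP ex t := by
    rw [mem_PP, map_sub, map_natCast]; simp
  rw [← e, mem_PP, map_sub, map_natCast] at this
  simpa [sub_eq_zero] using this

lemma level (hex : ex.IsPrimitive) (hlp : (l : ZMod p) ≠ 0) (n : ℕ) {x : RR l}
    (h : ∀ t, t ≠ 0 → x ∈ PP ex t ^ n) : ∃ y, qq l x = p ^ n * qq l y := by
  have h1 : x ∈ (∏ t ∈ univ.erase 0, PP ex t) ^ n := by
    rw [← prod_pow, Ideal.prod_eq_iInf_of_pairwise_isCoprime
      (fun s _ t _ hst => (PP_cop hex hst).pow)]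
    simp only [Ideal.mem_iInf]
    exact fun t ht => h t (ne_of_mem_erase ht)
  have h2 : ∏ t ∈ univ.erase 0, PP ex t ≤ 
      (Ideal.span {(p : RR l ⧸ Ideal.span {nu ℤ (ZMod l)})}).comap (qq l) := by
    intro y hy
    obtain ⟨z, hz⟩ := level_one hex hlp (x := y) fun t ht =>
      mem_PP.1 ((Ideal.prod_le_inf.trans (inf_le (mem_erase.2 ⟨ht, mem_univ _⟩))) hy)
    rw [Ideal.mem_comap, hz]
    exact Ideal.mul_mem_right _ _ (Ideal.mem_span_singleton_self _)
  have h3 := Ideal.mem_map_of_mem (qq l) (Ideal.pow_right_mono h2 n h1)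
  rw [Ideal.map_pow] at h3
  have h4 := Ideal.pow_right_mono (Ideal.map_comap_le (f := qq l)) n h3
  rw [Ideal.span_singleton_pow, Ideal.mem_span_singleton'] at h4
  obtain ⟨a, ha⟩ := h4
  obtain ⟨y, rfl⟩ := Ideal.Quotient.mk_surjective a
  exact ⟨y, by rw [← ha, mul_comm]; rfl⟩

/-- numbers of absolute value the square root of `p` -/
def Weil (p : ℕ) (α : RR l) : Prop := qq l (α * sig (-1) α) = p

omit [Fact p.Prime] in
lemma Weil.sig {α : RR l} (h : Weil p α) {u : ZMod l} (hu : u ≠ 0) : Weil p (sig u α) := by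
  unfold Weil at h ⊢
  rw [← map_natCast (qq l)] at h ⊢
  have := qq_sig h hu
  rwa [map_mul, map_natCast, sig_sig, mul_comm u, ← sig_sig] at this

lemma Weil.cover (hex : ex.IsPrimitive) {α : RR l} (h : Weil p α) {t : ZMod l} (ht : t ≠ 0) :
    phi ex t α = 0 ∨ phi ex (-t) α = 0 := by
  unfold Weil at h
  rw [← map_natCast (qq l)] at h
  have := phi_qq hex ht h
  rwa [map_mul, map_natCast, ZMod.natCast_self, phi_sig, mul_neg_one, mul_eq_zero] at this

lemma Weil.not_both (hex : ex.IsPrimitive) (hlp : (l : ZMod p) ≠ 0) {α : RR l} (h : Weil p α)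
    {t : ZMod l} (ht : t ≠ 0) (h1 : phi ex t α = 0) (h2 : phi ex (-t) α = 0) : False := by
  set e : RR l := ∏ s ∈ univ.erase t, (single 1 1 - ((ex s).val : RR l)) with he
  have pe : ∀ s, phi ex s e = ∏ r ∈ univ.erase t, (ex s - ex r) := by
    intro s
    rw [he, map_prod]
    refine prod_congr rfl fun r _ => ?_
    rw [map_sub, map_natCast]; simp
  have key : ∀ z : RR l, phi ex t z = 0 → ∃ y, qq l (e * z) = p * qq l y := by
    intro z hz
    refine level_one hex hlp fun s _ => ?_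
    rw [map_mul]
    by_cases hs : s = t
    · rw [hs, hz, mul_zero]
    · rw [pe, prod_eq_zero (f := fun r => ex s - ex r) (mem_erase.2 ⟨hs, mem_univ _⟩)
        (sub_self _), zero_mul]
  obtain ⟨y, hy⟩ := key α h1
  obtain ⟨y', hy'⟩ := key (Sp.sig (-1) α) (by rw [phi_sig, mul_neg_one, h2])
  unfold Weil at h
  rw [map_mul] at h hy hy'
  have h3 : qq l (e * e) = qq l (p * (y * y')) := by
    apply qq_cancel (n := p) (by exact_mod_cast (Fact.out : p.Prime).ne_zero)
    simp only [map_mul, map_natCast, Int.cast_natCast]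
    linear_combination (qq l e * qq l (Sp.sig (-1) α)) * hy + p * qq l y * hy' -
      qq l e * qq l e * h
  have h4 := phi_qq hex ht h3
  rw [map_mul, map_mul, map_natCast, ZMod.natCast_self, zero_mul, mul_self_eq_zero, pe,
    prod_eq_zero_iff] at h4
  obtain ⟨r, hr, h5⟩ := h4
  exact ne_of_mem_erase hr (ex_inj hex (sub_eq_zero.1 h5)).symm

/-- the set of primes dividing `α` -/
noncomputable def Ph (ex : AddChar (ZMod l) (ZMod p)) (α : RR l) : Finset (ZMod l) :=
  (univ.erase 0).filter (fun t => phi ex t α = 0)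

lemma mem_Ph {α : RR l} {t : ZMod l} : t ∈ Ph ex α ↔ t ≠ 0 ∧ phi ex t α = 0 := by
  simp [Ph]

lemma Weil.card (hex : ex.IsPrimitive) (hlp : (l : ZMod p) ≠ 0) {α : RR l} (h : Weil p α) :
    2 * (Ph ex α).card + 1 = l := by
  have h1 := card_filter_add_card_filter_not (s := (univ : Finset (ZMod l)).erase 0)
    (fun t => phi ex t α = 0)
  have h2 : ((univ.erase 0).filter (fun t => ¬ phi ex t α = 0)).card = (Ph ex α).card := by
    refine card_bij' (fun t _ => -t) (fun t _ => -t) ?_ ?_ (by simp) (by simp)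
    · intro t ht
      simp only [mem_filter, mem_erase, mem_univ, and_true] at ht
      exact mem_Ph.2 ⟨neg_ne_zero.2 ht.1, (h.cover hex ht.1).resolve_left ht.2⟩
    · intro t ht
      obtain ⟨a1, a2⟩ := mem_Ph.1 ht
      simp only [mem_filter, mem_erase, mem_univ, and_true]
      exact ⟨neg_ne_zero.2 a1, fun a3 => h.not_both hex hlp a1 a2 a3⟩
  have h3 := card_erase_add_one (mem_univ (0 : ZMod l))
  rw [card_univ, ZMod.card] at h3
  rw [h2] at h1
  unfold Ph at *
  omega

lemma prod_mem_pow {R ι : Type*} [CommRing R] (P : Ideal R) (s : Finset ι) (x : ι → R)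
    (q : ι → Prop) [DecidablePred q] (h : ∀ i ∈ s, q i → x i ∈ P) :
    ∏ i ∈ s, x i ∈ P ^ (s.filter q).card := by
  rw [← prod_filter_mul_prod_filter_not s q, ← prod_const]
  exact Ideal.mul_mem_right _ _ (Ideal.prod_mem_prod fun i hi =>
    h i (mem_filter.1 hi).1 (mem_filter.1 hi).2)

omit [Fact p.Prime] in
lemma Weil.prod {ι : Type*} (s : Finset ι) (x : ι → RR l) (h : ∀ i ∈ s, Weil p (x i)) :
    qq l (∏ i ∈ s, x i) * qq l (Sp.sig (-1) (∏ i ∈ s, x i)) = p ^ s.card := by
  rw [← map_mul, map_prod, ← prod_mul_distrib, map_prod, ← prod_const]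
  exact prod_congr rfl h

omit [Fact p.Prime] in
lemma Weil.unit (hp : (p : ZMod l) = 1) {α : RR l} (h : Weil p α) :
    IsUnit (red l (ZMod l) α) := by
  unfold Weil at h
  rw [← map_natCast (qq l)] at h
  obtain ⟨c, hc⟩ := qq_eq.1 h
  have := congrArg (red l (ZMod l)) hc
  rw [natCast_def, red_triv, map_mul] at this
  refine isUnit_of_mul_isUnit_left (y := red l (ZMod l) (Sp.sig (-1) α)) ?_
  rw [this]
  exact unit_triv _ _ _ (by simp [hp])

/-- the commutation lemma -/
lemma commut (hex : ex.IsPrimitive) (hlp : (l : ZMod p) ≠ 0) (hp : (p : ZMod l) = 1)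
    {α β : RR l} (hα : Weil p α) (hβ : Weil p β) (k : ℕ) (hk : 1 ≤ k) (hk2 : k + 2 < l)
    (hke : Even k) :
    kc k (red l (ZMod l) α) * ∑ r ∈ Ph ex β, r⁻¹ ^ (k + 1) =
      kc k (red l (ZMod l) β) * ∑ r ∈ Ph ex α, r⁻¹ ^ (k + 1) := by
  set A := ∏ r ∈ Ph ex β, sig r⁻¹ α with hA
  set B := ∏ r ∈ Ph ex α, sig (-r⁻¹) β with hB
  have hc : (Ph ex β).card = (Ph ex α).card := by
    have := hα.card hex hlp
    have := hβ.card hex hlp
    omega
  obtain ⟨u, hu⟩ := level hex hlp (Ph ex α).card (x := A * B) fun t ht => by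
    have m1 := prod_mem_pow (PP ex t) (Ph ex β) (fun r => sig r⁻¹ α)
      (fun r => phi ex (t * r⁻¹) α = 0) (fun r _ hr => by rw [mem_PP, phi_sig, hr])
    have m2 := prod_mem_pow (PP ex t) (Ph ex α) (fun r => sig (-r⁻¹) β)
      (fun r => ¬ phi ex (t * r⁻¹) β = 0) (fun r hr h2 => by
        rw [mem_PP, phi_sig, mul_neg]
        exact (hβ.cover hex (mul_ne_zero ht (inv_ne_zero (mem_Ph.1 hr).1))).resolve_left h2)
    have m3 : ((Ph ex β).filter (fun r => phi ex (t * r⁻¹) α = 0)).card =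
        ((Ph ex α).filter (fun r => phi ex (t * r⁻¹) β = 0)).card := by
      have aux : ∀ a b : RR l, ∀ r ∈ (Ph ex b).filter (fun r => phi ex (t * r⁻¹) a = 0),
          t * r⁻¹ ∈ (Ph ex a).filter (fun r => phi ex (t * r⁻¹) b = 0) := by
        intro a b r hr
        obtain ⟨a1, a2⟩ := mem_filter.1 hr
        obtain ⟨a3, a4⟩ := mem_Ph.1 a1
        refine mem_filter.2 ⟨mem_Ph.2 ⟨mul_ne_zero ht (inv_ne_zero a3), a2⟩, ?_⟩
        rwa [show t * (t * r⁻¹)⁻¹ = r by field_simp]
      refine card_bij' (fun r _ => t * r⁻¹) (fun r _ => t * r⁻¹) (aux α β) (aux β α) ?_ ?_ <;>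
      · intro r hr
        have := (mem_Ph.1 (mem_filter.1 hr).1).1
        field_simp
    rw [← card_filter_add_card_filter_not (s := Ph ex α) (fun r => phi ex (t * r⁻¹) β = 0),
      pow_add, ← m3]
    exact Ideal.mul_mem_mul m1 m2
  have wA := Weil.prod (Ph ex β) (fun r => sig r⁻¹ α)
    (fun r hr => hα.sig (inv_ne_zero (mem_Ph.1 hr).1))
  have wB := Weil.prod (Ph ex α) (fun r => sig (-r⁻¹) β)
    (fun r hr => hβ.sig (neg_ne_zero.2 (inv_ne_zero (mem_Ph.1 hr).1)))
  rw [← hA, hc] at wA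
  rw [← hB] at wB
  set h := (Ph ex α).card
  have hu1 : qq l (A * B) = qq l (p ^ h * u) := by rw [hu]; simp
  have hu2 := qq_sig hu1 (u := -1) (by simp)
  simp only [map_mul, map_pow, map_natCast] at hu hu2
  have h1 : qq l (u * sig (-1) u) = 1 := by
    rw [← map_one (qq l)]
    apply qq_cancel (n := p ^ h * p ^ h)
      (by have := (Fact.out : p.Prime).ne_zero; positivity)
    simp only [map_mul, map_one, Int.cast_mul, Int.cast_pow, Int.cast_natCast]
    linear_combination (qq l B * qq l (sig (-1) B)) * wA + (p : _) ^ h * wB -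
      qq l (sig (-1) A) * qq l (sig (-1) B) * hu - (p : _) ^ h * qq l u * hu2
  obtain ⟨a, b, c, hb, rfl⟩ := kron h1
  obtain ⟨c', hc'⟩ := qq_eq.1 hu1
  have h2 : A * B = single a (p ^ h * b) + (p ^ h * c + c') • nu ℤ (ZMod l) := by
    rw [hc', ← smul_single', add_smul, mul_smul]
    simp only [zsmul_eq_mul]
    push_cast
    ring
  have h3 := kc_triv k hk hk2 a ((p ^ h * b : ℤ) : ZMod l) ((p ^ h * c + c' : ℤ) : ZMod l)
    (by rcases hb with rfl | rfl <;> simp [hp])
  have uA : ∀ r ∈ Ph ex β, IsUnit (red l (ZMod l) (sig r⁻¹ α)) :=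
    fun r hr => (hα.sig (inv_ne_zero (mem_Ph.1 hr).1)).unit hp
  have uB : ∀ r ∈ Ph ex α, IsUnit (red l (ZMod l) (sig (-r⁻¹) β)) :=
    fun r hr => (hβ.sig (neg_ne_zero.2 (inv_ne_zero (mem_Ph.1 hr).1))).unit hp
  rw [← red_triv, ← h2, map_mul, hA, hB, map_prod, map_prod,
    kc_mul k (IsUnit.prod_iff.2 uA) (IsUnit.prod_iff.2 uB), kc_prod k _ _ uA,
    kc_prod k _ _ uB] at h3
  simp only [sig, red_pf, kc_sig k _ (hα.unit hp), kc_sig k _ (hβ.unit hp),
    hke.add_one.neg_pow, neg_mul, sum_neg_distrib, ← sum_mul] at h3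
  linear_combination h3

end Pool.Agent.MP_dcfa1b_co.Sp

end

section

set_option autoImplicit false
open Finset AddMonoidAlgebra

namespace Pool.Agent.MP_dcfa1b_co.Sp

lemma vander {ι F : Type*} [Fintype ι] [Field F] (x v : ι → F) (hx : Function.Injective x)
    (h : ∀ j < Fintype.card ι, ∑ i, v i * x i ^ j = 0) (i : ι) : v i = 0 := by
  let e := (Fintype.equivFin ι).symm
  have := Matrix.eq_zero_of_forall_pow_sum_mul_pow_eq_zero (f := fun i => x (e i))
    (v := fun i => v (e i)) (hx.comp e.injective) (fun j => by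
      rw [← h j j.2]; exact e.sum_comp (fun i => v i * x i ^ (j : ℕ)))
  simpa using congrFun this (e.symm i)

variable {l : ℕ} [Fact l.Prime]

lemma affine (hl : 3 ≤ l) (v : ZMod l → ZMod l)
    (h : ∀ k, Even k → 2 ≤ k → k + 2 < l → ∑ t, t⁻¹ ^ (k + 1) * v t = 0) :
    ∃ β : ZMod l, ∀ t, v t - v (-t) = β * t := by
  have hM : ∀ j, ∑ t, (v t - v (-t)) * t⁻¹ ^ j = (1 - (-1) ^ j) * ∑ t, t⁻¹ ^ j * v t := by
    intro j
    have : ∑ t, v (-t) * t⁻¹ ^ j = ∑ t, (-1) ^ j * (t⁻¹ ^ j * v t) :=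
      Fintype.sum_equiv (Equiv.neg _) _ _ fun t => by
        simp only [Equiv.neg_apply, inv_neg]
        rw [neg_pow t⁻¹, ← mul_assoc, ← mul_assoc, ← mul_pow]
        simp [mul_comm]
    simp only [sub_mul, sum_sub_distrib, this, ← mul_sum, one_mul]
    simp only [mul_comm (v _)]
  have hN : ∀ j, j + 2 < l → ∑ t : ZMod l, t * t⁻¹ ^ (j + 2) = 0 := by
    intro j hj
    rw [← psum (l := l) (j + 1) hj]
    refine Fintype.sum_equiv (Equiv.inv _) _ _ fun t => ?_
    simp only [Equiv.inv_apply]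
    by_cases ht : t = 0
    · simp [ht]
    · rw [pow_succ' _ (j + 1), ← mul_assoc, mul_inv_cancel₀ ht, one_mul]
  have h1 : ∑ t : ZMod l, t * t⁻¹ ^ 1 = -1 := by
    rw [← psum_top]
    refine sum_congr rfl fun t _ => ?_
    by_cases ht : t = 0
    · rw [ht, zero_mul, zero_pow (by omega)]
    · rw [ZMod.pow_card_sub_one_eq_one ht, pow_one, mul_inv_cancel₀ ht]
  refine ⟨-∑ t, (v t - v (-t)) * t⁻¹ ^ 1, fun t => sub_eq_zero.1 ?_⟩
  set β := -∑ t, (v t - v (-t)) * t⁻¹ ^ 1 with hβ
  refine vander (fun t => t⁻¹) (fun t => v t - v (-t) - β * t) inv_injective (fun j hj => ?_) t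
  rw [ZMod.card] at hj
  simp only [sub_mul (v _ - v _), sum_sub_distrib, mul_assoc, ← mul_sum]
  rcases j with _ | _ | j
  · have := psum (l := l) 1 (by omega)
    simp only [pow_one] at this
    rw [hM]
    simp [this]
  · rw [zero_add, h1, hβ]; ring
  · rw [hN j hj, mul_zero, sub_zero, hM]
    rcases Nat.even_or_odd j with e | e
    · rw [show j + 1 + 1 = j + 2 from rfl, (e.add even_two).neg_one_pow, sub_self, zero_mul]
    · have hodd : Odd l := (Fact.out : l.Prime).odd_of_ne_two (by omega)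
      obtain ⟨a, ha⟩ := e
      obtain ⟨b, hb⟩ := hodd
      rw [h (j + 1) ⟨a + 1, by omega⟩ (by omega) (by omega), mul_zero]

lemma sig_rho (u a b : ZMod l) (D : AddMonoidAlgebra ℤ (ZMod l × ZMod l)) :
    sig u (pf ℤ (rho a b) D) = pf ℤ (rho (u * a) (u * b)) D := by
  induction D using AddMonoidAlgebra.induction_linear with
  | zero => simp
  | add x x' hx hx' => simp only [map_add, hx, hx']
  | single g c => simp [mul_add, mul_assoc]

variable {p : ℕ} [Fact p.Prime] {ex : AddChar (ZMod l) (ZMod p)}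

/-- number of vanishing character values in a row -/
noncomputable def vv (ex : AddChar (ZMod l) (ZMod p)) (D : AddMonoidAlgebra ℤ (ZMod l × ZMod l))
    (t : ZMod l) : ℕ := (univ.filter (fun a => phi ex 1 (pf ℤ (rho a t) D) = 0)).card

lemma plane (hl : 3 ≤ l) (hex : ex.IsPrimitive) (hlp : (l : ZMod p) ≠ 0) (hp : (p : ZMod l) = 1)
    (hβ : ∀ k, Even k → 2 ≤ k → k + 2 < l →
      ∃ β : RR l, Weil p β ∧ kc k (red l (ZMod l) β) ≠ 0)
    (D : AddMonoidAlgebra ℤ (ZMod l × ZMod l)) (hD : aug (red l _ D) ≠ 0)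
    (hW : ∀ a, Weil p (pf ℤ (rho a 1) D) ∨
      ∃ c : ℤ, pf ℤ (rho a 1) D = single 0 (-1) + c • nu ℤ (ZMod l)) :
    ∃ β : ZMod l, ∀ t, (vv ex D t : ZMod l) - vv ex D (-t) = β * t := by
  refine affine hl (fun t => vv ex D t) fun k hke hk hk2 => ?_
  obtain ⟨β, hb, hb0⟩ := hβ k hke hk hk2
  have hU : IsUnit (red l _ D) := unit_of_aug (fun g => by ext <;> simp) _ hD
  have h0 := sum_kc_rho k hk2 1 hU
  have h1 : ∀ a, kc k (pf (ZMod l) (rho a 1) (red l _ D)) * ∑ r ∈ Ph ex β, r⁻¹ ^ (k + 1) =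
      kc k (red l (ZMod l) β) * ∑ r ∈ Ph ex (pf ℤ (rho a 1) D), r⁻¹ ^ (k + 1) := by
    intro a
    rw [← red_pf]
    rcases hW a with w | ⟨c, hc⟩
    · exact commut hex hlp hp w hb k (by omega) hk2 hke
    · rw [hc, red_triv, kc_triv k (by omega) hk2 _ _ _ (by simp), zero_mul, sum_eq_zero, mul_zero]
      intro r hr
      obtain ⟨a1, a2⟩ := mem_Ph.1 hr
      rw [map_add, map_zsmul, phi_nu hex a1] at a2
      simp at a2
  have h2 : ∑ a, ∑ r ∈ Ph ex (pf ℤ (rho a 1) D), r⁻¹ ^ (k + 1) = 0 := by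
    apply mul_left_cancel₀ hb0
    rw [mul_sum, ← sum_congr rfl fun a _ => h1 a, ← sum_mul, h0, zero_mul, mul_zero]
  rw [← h2]
  simp only [Ph, sum_filter]
  rw [sum_comm, ← add_sum_erase _ _ (mem_univ (0 : ZMod l)), inv_zero, zero_pow (by omega),
    zero_mul, zero_add]
  refine sum_congr rfl fun r hr => ?_
  have hr0 := ne_of_mem_erase hr
  rw [vv, card_filter, Nat.cast_sum, mul_sum]
  symm
  refine Fintype.sum_equiv (Equiv.mulLeft₀ r hr0) _ _ fun a => ?_
  have : phi ex 1 (pf ℤ (rho (r * a) r) D) = phi ex r (pf ℤ (rho a 1) D) := by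
    conv_rhs => rw [← one_mul r, ← phi_sig, sig_rho, mul_one]
  simp only [Equiv.mulLeft₀_apply, this]
  split_ifs <;> simp

omit [Fact p.Prime] in
lemma exists_beta (k : ℕ) (hk1 : 1 ≤ k) (hk : k + 2 < l)
    (D : AddMonoidAlgebra ℤ (ZMod l × ZMod l)) (hD : aug (red l _ D) ≠ 0)
    (hW : ∀ b, Weil p (pf ℤ (rho 1 b) D) ∨
      ∃ c : ℤ, pf ℤ (rho 1 b) D = single 0 (-1) + c • nu ℤ (ZMod l))
    (c : ℤ) (h1 : pf ℤ (rho 1 0) D = single 0 (-1) + c • nu ℤ (ZMod l))
    (h2 : mu k (pf (ZMod l) (rho 1 0) (th (AddMonoidHom.snd _ _) (red l _ D))) ≠ 0) :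
    ∃ β : RR l, Weil p β ∧ kc k (red l (ZMod l) β) ≠ 0 := by
  by_contra hh
  push Not at hh
  have hU : IsUnit (red l _ D) := unit_of_aug (fun g => by ext <;> simp) _ hD
  have h3 := coef_kc_rho k hk1 (by omega) hU (c : ZMod l)
    (by rw [← red_pf, h1, red_triv]; simp)
  rw [sum_eq_zero] at h3
  · refine mul_ne_zero ?_ h2 h3.symm
    have : ((k + 1 : ℕ) : ZMod l) ≠ 0 := fun e =>
      absurd (Nat.le_of_dvd (by omega) ((ZMod.natCast_eq_zero_iff _ _).1 e)) (by omega)
    simpa using this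
  · intro b _
    rw [← red_pf]
    rcases hW b with w | ⟨c, hc⟩
    · rw [hh _ w, mul_zero]
    · rw [hc, red_triv, kc_triv k hk1 hk _ _ _ (by simp), mul_zero]

end Pool.Agent.MP_dcfa1b_co.Sp

end

section

set_option autoImplicit false
open Finset AddMonoidAlgebra

namespace Pool.Agent.MP_dcfa1b_co.Sp

variable {A : Type*} [AddCommGroup A] [Fintype A] [DecidableEq A]

/-- the rows `j` such that `j` and `j + a` carry a dot -/
def rowS (a : A) : Finset A := (univ.erase 0).filter (fun j => j + a ≠ 0)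

lemma mem_rowS {a j : A} : j ∈ rowS a ↔ j ≠ 0 ∧ j + a ≠ 0 := by simp [rowS]

lemma sum_rowS {T : Type*} [AddCommGroup T] {a : A} (ha : a ≠ 0) (F : A → T) :
    ∑ j ∈ rowS a, F j = ∑ j, F j - F 0 - F (-a) := by
  have : rowS a = (univ.erase 0).erase (-a) := by
    ext j; simp [mem_rowS, add_eq_zero_iff_eq_neg, and_comm]
  rw [this, sum_erase_eq_sub (mem_erase.2 ⟨neg_ne_zero.2 ha, mem_univ _⟩),
    sum_erase_eq_sub (mem_univ _)]

lemma card_rowS {a : A} (ha : a ≠ 0) : (rowS a).card + 2 = Fintype.card A := by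
  have := sum_rowS ha (fun _ => (1 : ℤ))
  simp only [sum_const, nsmul_eq_mul, mul_one, card_univ] at this
  omega

/-- the missing difference in row `a` -/
def gam (f : A ≃ A) (a : A) : A := ∑ c, c + f a - f (-a)

lemma row (f : A ≃ A) (f0 : f 0 = 0) {a : A} (ha : a ≠ 0)
    (hinj : Set.InjOn (fun j => f (j + a) - f j) (rowS a)) :
    gam f a ∉ (rowS a).image (fun j => f (j + a) - f j) ∧
      insert (gam f a) ((rowS a).image (fun j => f (j + a) - f j)) = univ.erase 0 := by
  have hsub : (rowS a).image (fun j => f (j + a) - f j) ⊆ univ.erase 0 := by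
    intro y hy
    obtain ⟨x, -, rfl⟩ := mem_image.1 hy
    refine mem_erase.2 ⟨fun e => ha ?_, mem_univ _⟩
    simpa using f.injective (sub_eq_zero.1 e)
  obtain ⟨g, hg1, hg2⟩ := exists_eq_insert_iff.2 ⟨hsub, by
    have := card_rowS ha
    have h2 := card_erase_add_one (mem_univ (0 : A))
    rw [card_univ] at h2
    rw [card_image_of_injOn hinj]; omega⟩
  have h1 : ∑ c ∈ univ.erase (0 : A), c = ∑ c, c := by rw [sum_erase_eq_sub (mem_univ _), sub_zero]
  rw [← hg2, sum_insert hg1, sum_image hinj, sum_rowS ha, sum_sub_distrib,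
    Fintype.sum_equiv (Equiv.addRight a) (fun j => f (j + a)) f (fun _ => rfl)] at h1
  have : g = gam f a := by
    rw [gam, ← h1]; simp [f0]; abel
  rw [← this]
  exact ⟨hg1, hg2⟩

/-- the weak form of the modular Costas property -/
def Ws (f : A ≃ A) : Prop := f 0 = 0 ∧ ∀ i j k m, i ≠ 0 → j ≠ 0 → k ≠ 0 → m ≠ 0 → i ≠ j →
  i - j = k - m → f i - f j = f k - f m → i = k ∨ (m = i ∧ k = j)

/-- the modular Costas property -/
def Sd (f : A ≃ A) : Prop := f 0 = 0 ∧ ∀ i j k m, i ≠ 0 → j ≠ 0 → k ≠ 0 → m ≠ 0 → i ≠ j →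
  i - j = k - m → f i - f j = f k - f m → i = k

omit [Fintype A] [DecidableEq A] in
lemma ne0 {f : A ≃ A} (f0 : f 0 = 0) {i : A} (hi : i ≠ 0) : f i ≠ 0 :=
  fun e => hi (f.injective (e.trans f0.symm))

omit [Fintype A] [DecidableEq A] in
lemma Sd.symm {f : A ≃ A} (h : Sd f) : Sd f.symm := by
  have g0 : f.symm 0 = 0 := by rw [Equiv.symm_apply_eq, h.1]
  refine ⟨g0, fun i j k m hi hj hk hm hij e1 e2 => f.symm.injective ?_⟩
  exact h.2 _ _ _ _ (ne0 g0 hi) (ne0 g0 hj) (ne0 g0 hk) (ne0 g0 hm)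
    (fun e => hij (f.symm.injective e)) e2 (by simpa using e1)

lemma Sd.injOn {f : A ≃ A} (h : Sd f) {a : A} (ha : a ≠ 0) :
    Set.InjOn (fun j => f (j + a) - f j) (rowS a) := by
  intro i hi j hj e
  obtain ⟨a1, a2⟩ := mem_rowS.1 hi
  obtain ⟨b1, b2⟩ := mem_rowS.1 hj
  exact add_right_cancel (h.2 (i + a) i (j + a) j a2 a1 b2 b1 (by simpa using ha) (by abel) e)

lemma Ws.sd {f : A ≃ A} (h : Ws f) {o : A} (ho : ∑ c, c = o)
    (two : ∀ i : A, i + i = 0 → i = 0 ∨ i = o) : Sd f := by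
  refine ⟨h.1, fun i j k m hi hj hk hm hij e1 e2 => ?_⟩
  rcases h.2 i j k m hi hj hk hm hij e1 e2 with e | ⟨rfl, rfl⟩
  · exact e
  exfalso
  have c1 : m - k = o := (two _ (by rw [← sub_eq_zero] at e1; rw [← e1]; abel)).resolve_left
    (sub_ne_zero.2 hij)
  have c2 : f m - f k = o := (two _ (by rw [← sub_eq_zero] at e2; rw [← e2]; abel)).resolve_left
    (sub_ne_zero.2 fun e => hij (f.injective e))
  have o0 : o ≠ 0 := c1 ▸ sub_ne_zero.2 hij
  have key : ∀ i a, i ≠ 0 → i + a ≠ 0 → f (i + a) - f i = o →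
      a ∈ (fun c => f.symm (c + o) - f.symm c) '' (rowS o) := by
    intro i a h1 h2 h3
    have h4 : f i + o = f (i + a) := by rw [← h3]; abel
    refine ⟨f i, mem_coe.2 (mem_rowS.2 ⟨ne0 h.1 h1, h4 ▸ ne0 h.1 h2⟩), ?_⟩
    simp [h4]
  have hs : Set.SurjOn (fun c => f.symm (c + o) - f.symm c) (rowS o) (univ.erase (0 : A)) := by
    intro a ha
    have ha0 : a ≠ 0 := ne_of_mem_erase (mem_coe.1 ha)
    by_cases hao : a = o
    · have : k + a = m := by rw [hao, ← c1]; abel
      exact key k a hk (this ▸ hi) (this ▸ c2)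
    have h2 : a + a ≠ 0 := fun e => (two a e).elim ha0 hao
    have hinj : Set.InjOn (fun j => f (j + a) - f j) (rowS a) := by
      intro i hi j hj e
      obtain ⟨a1, a2⟩ := mem_rowS.1 hi
      obtain ⟨b1, b2⟩ := mem_rowS.1 hj
      rcases h.2 (i + a) i (j + a) j a2 a1 b2 b1 (by simpa using ha0) (by abel) e with e | ⟨e1, e2⟩
      · exact add_right_cancel e
      · exact absurd (by rw [e1, add_assoc] at e2; simpa using e2) h2
    have : o ∈ insert (gam f a) ((rowS a).image (fun j => f (j + a) - f j)) := by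
      rw [(row f h.1 ha0 hinj).2]; exact mem_erase.2 ⟨o0, mem_univ _⟩
    rcases mem_insert.1 this with e | e
    · rw [gam, ho, add_sub_assoc, left_eq_add, sub_eq_zero] at e
      exact absurd (add_eq_zero_iff_eq_neg.2 (f.injective e)) h2
    · obtain ⟨i, hi, e⟩ := mem_image.1 e
      exact key i a (mem_rowS.1 hi).1 (mem_rowS.1 hi).2 e
  have := card_le_card_of_surjOn _ hs
  have h2 := card_erase_add_one (mem_univ (0 : A))
  have h3 := card_rowS o0
  rw [card_univ] at h2
  omega

lemma Sd.gam_iff {f : A ≃ A} (h : Sd f) {a c : A} (ha : a ≠ 0) :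
    c = gam f a ↔ c ≠ 0 ∧ ∀ j, j ≠ 0 → j + a ≠ 0 → f (j + a) - f j ≠ c := by
  obtain ⟨h1, h2⟩ := row f h.1 ha (h.injOn ha)
  constructor
  · rintro rfl
    refine ⟨ne_of_mem_erase (h2 ▸ mem_insert_self _ _), fun j a1 a2 e => h1 ?_⟩
    exact mem_image.2 ⟨j, mem_rowS.2 ⟨a1, a2⟩, e⟩
  · rintro ⟨c0, hc⟩
    have : c ∈ insert (gam f a) ((rowS a).image (fun j => f (j + a) - f j)) := by
      rw [h2]; exact mem_erase.2 ⟨c0, mem_univ _⟩
    refine (mem_insert.1 this).resolve_right fun e => ?_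
    obtain ⟨i, hi, e⟩ := mem_image.1 e
    exact hc i (mem_rowS.1 hi).1 (mem_rowS.1 hi).2 e

lemma Sd.gam_symm {f : A ≃ A} (h : Sd f) {c : A} (hc : c ≠ 0) :
    gam f.symm c ≠ 0 ∧ gam f (gam f.symm c) = c := by
  obtain ⟨h1, h2⟩ := (h.symm.gam_iff hc).1 rfl
  refine ⟨h1, ((h.gam_iff h1).2 ⟨hc, fun j a1 a2 e => ?_⟩).symm⟩
  have e' : f j + c = f (j + gam f.symm c) := (sub_eq_iff_eq_add'.1 e).symm
  exact h2 (f j) (ne0 h.1 a1) (e' ▸ ne0 h.1 a2) (by rw [e']; simp)

lemma Sd.jj {f : A ≃ A} (h : Sd f) {T : Type*} [CommRing T] (ψ χ : A → T)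
    (ψ0 : ψ 0 = 1) (χ0 : χ 0 = 1) (hψ : ∀ x y, ψ (x + y) = ψ x * ψ y)
    (hχ : ∀ x y, χ (x + y) = χ x * χ y) (h2 : ∑ c, χ c = 0) :
    (∑ i ∈ univ.erase 0, ψ i * χ (f i)) * ∑ j ∈ univ.erase 0, ψ (-j) * χ (-f j) =
      Fintype.card A - ∑ a, ψ a - ∑ a, ψ a * χ (gam f a) + χ (gam f 0) := by
  have e1 : (∑ i ∈ univ.erase 0, ψ i * χ (f i)) * ∑ j ∈ univ.erase 0, ψ (-j) * χ (-f j) =
      ∑ a, ψ a * ∑ j ∈ rowS a, χ (f (j + a) - f j) := by
    simp only [rowS, sum_filter, mul_sum]
    rw [sum_comm]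
    refine sum_congr rfl fun j _ => ?_
    rw [sum_mul, ← filter_ne', sum_filter]
    symm
    refine Fintype.sum_equiv (Equiv.addLeft j) _ _ fun a => ?_
    by_cases hja : j + a = 0
    · simp [hja]
    · rw [if_pos hja, if_pos (show Equiv.addLeft j a ≠ 0 from hja), Equiv.coe_addLeft,
        sub_eq_add_neg, hχ,
        show ψ a = ψ (j + a) * ψ (-j) by rw [← hψ]; simp]
      ring
  have e2 : ∀ a ∈ univ.erase (0 : A), ψ a * ∑ j ∈ rowS a, χ (f (j + a) - f j) =
      - ψ a - ψ a * χ (gam f a) := by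
    intro a ha
    have ha0 := ne_of_mem_erase ha
    obtain ⟨h1, h3⟩ := row f h.1 ha0 (h.injOn ha0)
    have := sum_erase_eq_sub (f := χ) (mem_univ (0 : A))
    rw [← h3, sum_insert h1, sum_image (h.injOn ha0), h2, χ0] at this
    linear_combination ψ a * this
  have e3 : ∑ j ∈ rowS (0 : A), χ (f (j + 0) - f j) = Fintype.card A - 1 := by
    have : rowS (0 : A) = univ.erase 0 := by ext j; simp [mem_rowS]
    rw [this, sum_erase_eq_sub (mem_univ _)]
    simp [χ0]
  rw [e1, ← add_sum_erase _ _ (mem_univ (0 : A)), sum_congr rfl e2, e3, sum_sub_distrib,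
    sum_neg_distrib, sum_erase_eq_sub (mem_univ _), sum_erase_eq_sub (mem_univ _), ψ0]
  ring

variable {l : ℕ} [Fact l.Prime]

/-- a group of order `2 l` with its projection onto the cyclic group of order `l` -/
structure Gp (π : A →+ ZMod l) (o : A) : Prop where
  card : Fintype.card A = 2 * l
  ker : ∀ i, π i = 0 ↔ i = 0 ∨ i = o
  o0 : o ≠ 0
  surj : Function.Surjective π
  sum : ∑ c, c = o
  l3 : 3 ≤ l

variable {π : A →+ ZMod l} {o : A}

omit [DecidableEq A] in
lemma Gp.po (G : Gp π o) : π o = 0 := (G.ker o).2 (Or.inr rfl)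

omit [DecidableEq A] in
lemma Gp.two0 (G : Gp π o) : (2 : ZMod l) ≠ 0 := by
  intro e
  have := Nat.le_of_dvd two_pos ((ZMod.natCast_eq_zero_iff 2 l).1 (by exact_mod_cast e))
  have := G.l3
  omega

omit [DecidableEq A] in
lemma Gp.two (G : Gp π o) (i : A) (h : i + i = 0) : i = 0 ∨ i = o := by
  rw [← G.ker]
  have := congrArg π h
  rw [map_add, map_zero, ← two_mul] at this
  exact (mul_eq_zero.1 this).resolve_left G.two0

omit [DecidableEq A] in
lemma Gp.oo (G : Gp π o) : o + o = 0 :=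
  ((G.ker (o + o)).1 (by rw [map_add, G.po, add_zero])).resolve_right
    fun e => G.o0 (by simpa using e)

lemma Gp.fiber (G : Gp π o) {T : Type*} [AddCommMonoid T] (W : A → T) (j : A) :
    ∑ i ∈ univ.filter (fun i => π i = π j), W i = W j + W (j + o) := by
  have : univ.filter (fun i => π i = π j) = {j, j + o} := by
    ext i
    simp only [mem_filter, mem_univ, true_and, mem_insert, mem_singleton]
    rw [← sub_eq_zero, ← map_sub, G.ker, sub_eq_zero, sub_eq_iff_eq_add']
  rw [this, sum_pair (by simpa using G.o0)]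

lemma Gp.sum_pi (G : Gp π o) {T : Type*} [Semiring T] (w : A → T) (c : T)
    (hw : ∀ j, w j + w (j + o) = c) (F : ZMod l → T) :
    ∑ i, w i * F (π i) = c * ∑ k, F k := by
  rw [← sum_fiberwise univ π, mul_sum]
  refine sum_congr rfl fun k _ => ?_
  obtain ⟨j, rfl⟩ := G.surj k
  rw [G.fiber (fun i => w i * F (π i)), map_add, G.po, add_zero, ← add_mul, hw]

/-- the weighted projection of the array -/
noncomputable def JD (π : A →+ ZMod l) (w : A → ℤ) (f : A ≃ A) :
    AddMonoidAlgebra ℤ (ZMod l × ZMod l) := ∑ i ∈ univ.erase 0, single (π i, π (f i)) (w i)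

lemma pf_JD (w : A → ℤ) (f : A ≃ A) (a b : ZMod l) : pf ℤ (rho a b) (JD π w f) =
    ∑ i ∈ univ.erase 0, single (a * π i + b * π (f i)) (w i) := by
  simp [JD, map_sum]

lemma Gp.triv (G : Gp π o) {c : ZMod l} (hc : c ≠ 0) :
    ∑ i ∈ univ.erase (0 : A), (single (c * π i) 1 : RR l) =
      single 0 (-1) + (2 : ℤ) • nu ℤ (ZMod l) := by
  have := G.sum_pi (fun _ => (1 : RR l)) 2 (fun _ => by norm_num) (fun k => single (c * k) 1)
  simp only [one_mul] at this
  rw [sum_erase_eq_sub (mem_univ _), this, ← sig_nu hc, nu, map_sum]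
  simp only [sig_single, map_zero, mul_zero, single_neg, zsmul_eq_mul]
  push_cast
  ring

lemma Gp.J0 (G : Gp π o) {f : A ≃ A} (f0 : f 0 = 0) {b : ZMod l} (hb : b ≠ 0) :
    pf ℤ (rho 0 b) (JD π 1 f) = single 0 (-1) + (2 : ℤ) • nu ℤ (ZMod l) := by
  rw [← G.triv hb, pf_JD]
  refine sum_equiv f (fun i => ?_) (fun i _ => by simp)
  simp only [mem_erase, mem_univ, and_true]
  exact ⟨ne0 f0, fun h e => h (by rw [e, f0])⟩

lemma Gp.J0' (G : Gp π o) (f : A ≃ A) {a : ZMod l} (ha : a ≠ 0) :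
    pf ℤ (rho a 0) (JD π 1 f) = single 0 (-1) + (2 : ℤ) • nu ℤ (ZMod l) := by
  rw [← G.triv ha, pf_JD]
  simp

lemma J_symm {f : A ≃ A} {d : ZMod l} (H : ∀ a, π (f a) - π (f (-a)) = d * π a) (a b : ZMod l) :
    pf ℤ (rho a b) (JD π 1 f) = pf ℤ (rho (-a - b * d) b) (JD π 1 f) := by
  rw [pf_JD, pf_JD]
  refine sum_equiv (Equiv.neg A) (fun i => by simp) (fun i _ => ?_)
  simp only [Equiv.neg_apply, map_neg, Pi.one_apply]
  congr 1
  linear_combination b * H i

/-- the ring of cyclotomic integers -/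
abbrev OO (l : ℕ) [Fact l.Prime] : Type := RR l ⧸ Ideal.span {nu ℤ (ZMod l)}

lemma Gp.weil (G : Gp π o) {f : A ≃ A} (h : Sd f) {d : ZMod l}
    (H : ∀ a, π (f a) - π (f (-a)) = d * π a) (w : AddChar A ℤ) {a b : ZMod l} (hb : b ≠ 0)
    (hw : w o = -1 ∨ (w = 1 ∧ a ≠ 0 ∧ a + b * d ≠ 0)) :
    Weil (2 * l + 1) (pf ℤ (rho a b) (JD π w f)) := by
  set ε : ZMod l → OO l := fun k => qq l (single k 1) with hε
  have ε0 : ε 0 = 1 := by rw [hε]; simp only [← one_def, map_one]
  have εa : ∀ x y, ε (x + y) = ε x * ε y := by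
    intro x y; simp only [hε, ← map_mul, single_mul_single, mul_one]
  have εs : ∀ c, c ≠ 0 → ∑ k, ε (c * k) = 0 := by
    intro c hc
    have : sig c (nu ℤ (ZMod l)) = ∑ k, single (c * k) 1 := by simp [nu, map_sum]
    rw [sig_nu hc] at this
    have h2 := congrArg (qq l) this
    rw [qq_nu, map_sum] at h2
    exact h2.symm
  have εw : ∀ k (z : ℤ), qq l (single k z) = z * ε k := by
    intro k z
    rw [hε, ← map_intCast (qq l), ← map_mul, ← zsmul_eq_mul, smul_single, smul_eq_mul, mul_one]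
  have wn : ∀ i, w (-i) = w i := fun i =>
    Int.eq_of_mul_eq_one (by rw [← w.map_add_eq_mul, neg_add_cancel, w.map_zero_eq_one])
  have hs : ∀ c, (w o = -1 ∨ (w = 1 ∧ c ≠ 0)) → ∑ i, (w i : OO l) * ε (c * π i) = 0 := by
    rintro c (e | ⟨rfl, e⟩)
    · rw [G.sum_pi (fun i => (w i : OO l)) 0 (fun j => by rw [w.map_add_eq_mul, e]; simp)
        (fun k => ε (c * k)), zero_mul]
    · rw [G.sum_pi (fun i => ((1 : AddChar A ℤ) i : OO l)) 2 (fun j => by simp; norm_num)
        (fun k => ε (c * k)), εs c e, mul_zero]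
  have pg : ∀ x, π (gam f x) = d * π x := by
    intro x; rw [gam, G.sum, map_sub, map_add, G.po, zero_add, H]
  have key := h.jj (fun i => (w i : OO l) * ε (a * π i)) (fun c => ε (b * π c)) (by simp [ε0])
    (by simp [ε0]) (fun x y => by simp only [w.map_add_eq_mul, map_add, mul_add, εa]; push_cast; ring)
    (fun x y => by simp only [map_add, mul_add, εa])
    (by
      have := G.sum_pi (fun _ => 1) 2 (fun _ => by norm_num) (fun k => ε (b * k))
      simpa [εs b hb] using this)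
  have e3 : ∑ x, (w x : OO l) * ε (a * π x) * ε (b * π (gam f x)) = 0 := by
    rw [← hs (a + b * d) (hw.imp id fun e => ⟨e.1, e.2.2⟩)]
    refine sum_congr rfl fun x _ => ?_
    rw [pg, mul_assoc, ← εa]; congr 2; ring
  rw [hs a (hw.imp id fun e => ⟨e.1, e.2.1⟩), e3, pg, G.card] at key
  unfold Weil
  rw [sig_rho, map_mul, pf_JD, pf_JD, map_sum, map_sum]
  simp only [εw, εa]
  simp only [wn, map_neg, map_zero, mul_zero, ε0, mul_neg, mul_assoc] at key
  simp only [neg_mul, one_mul]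
  rw [key]
  push_cast
  ring

lemma Gp.H_symm (G : Gp π o) {f : A ≃ A} (h : Sd f) {d : ZMod l} (hd : d ≠ 0)
    (H : ∀ a, π (f a) - π (f (-a)) = d * π a) (c : A) :
    π (f.symm c) - π (f.symm (-c)) = d⁻¹ * π c := by
  by_cases hc : c = 0
  · simp [hc]
  have pg : ∀ (f : A ≃ A) x, π (gam f x) = π (f x) - π (f (-x)) := by
    intro f x; rw [gam, G.sum, map_sub, map_add, G.po, zero_add]
  have := congrArg π (h.gam_symm hc).2
  rw [pg, H, pg] at this
  rw [← this]
  field_simp

lemma Gp.d0 (G : Gp π o) {f : A ≃ A} (h : Sd f) {d : ZMod l}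
    (H : ∀ a, π (f a) - π (f (-a)) = d * π a) : d ≠ 0 := by
  rintro rfl
  obtain ⟨c, hc⟩ := G.surj 1
  have hc0 : c ≠ 0 := by rintro rfl; simp at hc
  have := congrArg π (h.gam_symm hc0).2
  rw [gam, G.sum, map_sub, map_add, G.po, zero_add, H, hc] at this
  simp at this

end Pool.Agent.MP_dcfa1b_co.Sp

end

section

set_option autoImplicit false
open Finset AddMonoidAlgebra

namespace Pool.Agent.MP_dcfa1b_co.Sp

variable {l : ℕ} [Fact l.Prime] {p : ℕ} [Fact p.Prime] {ex : AddChar (ZMod l) (ZMod p)}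

lemma vv_add (hex : ex.IsPrimitive) (hlp : (l : ZMod p) ≠ 0)
    (D : AddMonoidAlgebra ℤ (ZMod l × ZMod l)) (t : ZMod l) (S : Finset (ZMod l))
    (h1 : ∀ a ∈ S, Weil p (pf ℤ (rho a t) D))
    (h2 : ∀ a ∉ S, ∃ c : ℤ, pf ℤ (rho a t) D = single 0 (-1) + c • nu ℤ (ZMod l)) :
    vv ex D t + vv ex D (-t) = S.card := by
  have e : vv ex D (-t) = ∑ a, if phi ex (-1) (pf ℤ (rho a t) D) = 0 then 1 else 0 := by
    rw [vv, card_filter]
    refine Fintype.sum_equiv (Equiv.neg _) _ _ fun a => ?_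
    have : phi ex (-1) (pf ℤ (rho (-a) t) D) = phi ex 1 (pf ℤ (rho a (-t)) D) := by
      conv_lhs => rw [← one_mul (-1 : ZMod l), ← phi_sig, sig_rho, neg_one_mul, neg_one_mul, neg_neg]
    simp only [Equiv.neg_apply, this]
  rw [e, vv, card_filter, ← sum_add_distrib, card_eq_sum_ones, ← univ_inter S, ← filter_mem_eq_inter,
    sum_filter]
  refine sum_congr rfl fun a _ => ?_
  by_cases ha : a ∈ S
  · have c1 := (h1 a ha).cover hex one_ne_zero
    have c2 := (h1 a ha).not_both hex hlp one_ne_zero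
    by_cases d1 : phi ex 1 (pf ℤ (rho a t) D) = 0
    · simp [ha, d1, show ¬ phi ex (-1) (pf ℤ (rho a t) D) = 0 from c2 d1]
    · simp [ha, d1, c1.resolve_left d1]
  · obtain ⟨c, hc⟩ := h2 a ha
    rw [hc, map_add, map_add, map_zsmul, map_zsmul, phi_nu hex one_ne_zero, phi_nu hex (by simp)]
    simp [ha]

lemma stair (h2 : (2 : ZMod l) ≠ 0) (v : ZMod l → ℕ) (r : ℕ) (β : ZMod l)
    (h1 : ∀ t, (v t : ZMod l) - v (-t) = β * t) (hs : ∀ t, t ≠ 0 → v t + v (-t) + 2 * r = l)
    (h3 : ∀ t, t ≠ 0 → v t + r < l) :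
    ∃ b : ZMod l, b ≠ 0 ∧ ∀ k, k ≠ 0 → v (k * b) + r + k.val = l := by
  have key : ∀ t, t ≠ 0 → ((v (-t) + r : ℕ) : ZMod l) = -β / 2 * t := by
    intro t ht
    have := congrArg (Nat.cast : ℕ → ZMod l) (hs t ht)
    push_cast at this ⊢
    rw [ZMod.natCast_self] at this
    field_simp
    linear_combination this - h1 t
  have hβ : -β / 2 ≠ 0 := by
    intro e
    have a1 := key 1 one_ne_zero
    rw [e, zero_mul, ZMod.natCast_eq_zero_iff] at a1
    have a2 := hs 1 one_ne_zero
    have a3 := h3 1 one_ne_zero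
    have a4 := h3 (-1) (by simp)
    have := Nat.le_of_dvd (by omega) a1
    omega
  refine ⟨(-β / 2)⁻¹, inv_ne_zero hβ, fun k hk => ?_⟩
  have ht := mul_ne_zero hk (inv_ne_zero hβ)
  have a1 := key _ ht
  rw [mul_left_comm, mul_inv_cancel₀ hβ, mul_one] at a1
  have a2 := hs _ ht
  have a3 := ZMod.val_cast_of_lt (h3 _ (neg_ne_zero.2 ht))
  rw [a1] at a3
  omega

variable {A : Type*} [AddCommGroup A] [Fintype A] [DecidableEq A]

/-- the multiplicative group of the prime field, written additively -/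
structure Fl (π : A →+ ZMod l) (o : A) (e : AddChar A (ZMod p)) (ex : AddChar (ZMod l) (ZMod p))
    (sg : AddChar A ℤ) : Prop extends Gp π o where
  hp : p = 2 * l + 1
  einj : Function.Injective e
  eo : e o = -1
  exπ : ∀ i, ex (π i) = e i ^ 2
  prim : ex.IsPrimitive
  sgo : sg o = -1
  sgF : ∀ i, (sg i : ZMod p) = e i ^ l

variable {π : A →+ ZMod l} {o : A} {e : AddChar A (ZMod p)} {sg : AddChar A ℤ}

omit [DecidableEq A] in
lemma Fl.l2 (G : Fl π o e ex sg) : 2 * (l : ZMod p) = -1 := by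
  have := ZMod.natCast_self p
  rw [show ((p : ℕ) : ZMod p) = ((2 * l + 1 : ℕ) : ZMod p) by rw [← G.hp]] at this
  push_cast at this
  linear_combination this

omit [DecidableEq A] in
lemma Fl.lp (G : Fl π o e ex sg) : (l : ZMod p) ≠ 0 := by
  intro h
  have := G.l2
  rw [h] at this
  simp at this

omit [DecidableEq A] in
lemma Fl.twoF (G : Fl π o e ex sg) : (2 : ZMod p) ≠ 0 := by
  intro h
  have := G.l2
  rw [h] at this
  simp at this

omit [DecidableEq A] in
lemma Fl.pl (G : Fl π o e ex sg) : (p : ZMod l) = 1 := by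
  rw [G.hp]; simp

/-- Fourier transform -/
def TT (ex : AddChar (ZMod l) (ZMod p)) (π : A →+ ZMod l) (W : A → ZMod p) (a : ZMod l) : ZMod p :=
  ∑ i, ex (a * π i) * W i

/-- the character values along the array -/
def WW (ex : AddChar (ZMod l) (ZMod p)) (π : A →+ ZMod l) (f : A ≃ A) (t : ZMod l) (i : A) :
    ZMod p := if i = 0 then 0 else ex (t * π (f i))

omit [Fintype A] in
lemma WW_two (f : A ≃ A) (t : ZMod l) (i : A) : WW ex π f (2 * t) i = WW ex π f t i ^ 2 := by
  unfold WW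
  split_ifs
  · simp
  · rw [sq, ← ex.map_add_eq_mul]; congr 1; ring

lemma phi_JD (w : A → ℤ) (f : A ≃ A) (a t : ZMod l) : phi ex 1 (pf ℤ (rho a t) (JD π w f)) =
    TT ex π (fun i => w i * WW ex π f t i) a := by
  rw [pf_JD, map_sum, TT, ← add_sum_erase _ _ (mem_univ (0 : A))]
  simp only [WW, if_true, mul_zero, zero_add]
  refine sum_congr rfl fun i hi => ?_
  rw [if_neg (ne_of_mem_erase hi), phi_single, one_mul, ex.map_add_eq_mul]
  ring

lemma Fl.inv (G : Fl π o e ex sg) (W : A → ZMod p) (S : Finset (ZMod l))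
    (hS : ∀ a ∉ S, TT ex π W a = 0) (j : A) :
    W j + W (j + o) = -2 * ∑ a ∈ S, ex (-a * π j) * TT ex π W a := by
  rw [sum_subset (subset_univ S) (fun a _ ha => by rw [hS a ha, mul_zero]), ← G.fiber W j,
    sum_filter]
  simp only [TT, mul_sum]
  rw [sum_comm]
  refine sum_congr rfl fun i _ => ?_
  have := AddChar.sum_mulShift (π i - π j) G.prim
  calc _ = -2 * (∑ a, ex (a * (π i - π j))) * W i := by
        rw [this, ZMod.card]
        by_cases hij : π i = π j
        · simp only [hij, if_true, sub_self]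
          linear_combination (W i) * G.l2
        · simp [hij, sub_eq_zero]
    _ = _ := by
        rw [mul_sum, sum_mul]
        refine sum_congr rfl fun a _ => ?_
        rw [show a * (π i - π j) = -a * π j + a * π i by ring, ex.map_add_eq_mul]
        ring

omit [DecidableEq A] in
lemma Fl.symz (G : Fl π o e ex sg) (W : A → ZMod p) (a : ZMod l) :
    2 * TT ex π W a = ∑ i, ex (a * π i) * (W i + W (i + o)) := by
  simp only [mul_add, sum_add_distrib, two_mul, TT]
  congr 1
  symm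
  exact Fintype.sum_equiv (Equiv.addRight o) _ _ fun i => by simp [G.po]

/-- number of nonzero Fourier coefficients -/
noncomputable def UU (ex : AddChar (ZMod l) (ZMod p)) (π : A →+ ZMod l) (W : A → ZMod p) :
    Finset (ZMod l) := univ.filter (fun a => TT ex π W a ≠ 0)

omit [DecidableEq A] in
lemma mem_UU {W : A → ZMod p} {a : ZMod l} : a ∈ UU ex π W ↔ TT ex π W a ≠ 0 := by simp [UU]

lemma vv_UU (w : A → ℤ) (f : A ≃ A) (t : ZMod l) :
    vv ex (JD π w f) t + (UU ex π (fun i => w i * WW ex π f t i)).card = l := by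
  have := card_filter_add_card_filter_not (s := (univ : Finset (ZMod l)))
    (fun a => TT ex π (fun i => w i * WW ex π f t i) a = 0)
  rw [card_univ, ZMod.card] at this
  simp only [vv, phi_JD, UU]
  exact this

lemma aug_JD (w : A → ℤ) (f : A ≃ A) :
    aug (red l _ (JD π w f)) = ∑ i, (w i : ZMod l) - w 0 := by
  simp [JD, map_sum]

/-- existence of a number with nonzero logarithmic derivative -/
def Reg (l p : ℕ) [Fact l.Prime] : Prop := ∀ k, Even k → 2 ≤ k → k + 2 < l →
  ∃ β : RR l, Weil p β ∧ kc k (red l (ZMod l) β) ≠ 0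

lemma Fl.dich (G : Fl π o e ex sg) {f : A ≃ A} (h : Sd f) {d : ZMod l}
    (H : ∀ a, π (f a) - π (f (-a)) = d * π a) {t : ZMod l} (ht : t ≠ 0) (a : ZMod l) :
    (a ≠ 0 ∧ a + t * d ≠ 0 → Weil p (pf ℤ (rho a t) (JD π 1 f))) ∧
    (¬ (a ≠ 0 ∧ a + t * d ≠ 0) →
      pf ℤ (rho a t) (JD π 1 f) = single 0 (-1) + (2 : ℤ) • nu ℤ (ZMod l)) := by
  refine ⟨fun ha => ?_, fun ha => ?_⟩
  · have := G.weil h H 1 (a := a) ht (Or.inr ⟨rfl, ha⟩)
    rwa [← G.hp] at this
  · by_cases a0 : a = 0
    · rw [a0, G.J0 h.1 ht]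
    · have : -a - t * d = 0 := by
        have : a + t * d = 0 := by by_contra hh; exact ha ⟨a0, hh⟩
        linear_combination -this
      rw [J_symm H, this, G.J0 h.1 ht]

lemma Fl.stair1 (G : Fl π o e ex sg) (hR : Reg l p) {f : A ≃ A} (h : Sd f) {d : ZMod l}
    (H : ∀ a, π (f a) - π (f (-a)) = d * π a) :
    ∃ b : ZMod l, b ≠ 0 ∧ ∀ k, k ≠ 0 → (UU ex π (WW ex π f (k * b))).card = k.val + 1 := by
  have hd := G.d0 h H
  obtain ⟨β, hβ⟩ := plane G.l3 G.prim G.lp G.pl hR (JD π 1 f)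
    (by rw [aug_JD]; simp [G.card])
    (fun a => by
      by_cases ha : a ≠ 0 ∧ a + 1 * d ≠ 0
      · exact Or.inl ((G.dich h H one_ne_zero a).1 ha)
      · exact Or.inr ⟨2, (G.dich h H one_ne_zero a).2 ha⟩)
  have hs : ∀ t, t ≠ 0 → vv ex (JD π 1 f) t + vv ex (JD π 1 f) (-t) + 2 * 1 = l := by
    intro t ht
    have e : ∀ a, a ∈ (univ.erase 0).erase (-(t * d)) ↔ a ≠ 0 ∧ a + t * d ≠ 0 := by
      intro a; simp [add_eq_zero_iff_eq_neg, and_comm]
    rw [vv_add G.prim G.lp _ t ((univ.erase 0).erase (-(t * d)))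
      (fun a ha => (G.dich h H ht a).1 ((e a).1 ha))
      (fun a ha => ⟨2, (G.dich h H ht a).2 (fun hh => ha ((e a).2 hh))⟩)]
    have a1 := card_erase_add_one (mem_univ (0 : ZMod l))
    have a2 := card_erase_add_one (mem_erase.2 ⟨neg_ne_zero.2 (mul_ne_zero ht hd), mem_univ _⟩)
    rw [card_univ, ZMod.card] at a1
    omega
  obtain ⟨b, hb, hk⟩ := stair G.two0 _ 1 β hβ hs (fun t ht => by have := hs t ht; omega)
  refine ⟨b, hb, fun k k0 => ?_⟩
  have a1 := hk k k0
  have a2 := vv_UU (ex := ex) (π := π) 1 f (k * b)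
  simp only [Pi.one_apply, Int.cast_one, one_mul] at a2
  change _ + (UU ex π (WW ex π f (k * b))).card = l at a2
  omega

lemma Fl.stair0 (G : Fl π o e ex sg) (hR : Reg l p) {f : A ≃ A} (h : Sd f) {d : ZMod l}
    (H : ∀ a, π (f a) - π (f (-a)) = d * π a) :
    ∃ b : ZMod l, b ≠ 0 ∧ ∀ k, k ≠ 0 →
      (UU ex π (fun i => sg i * WW ex π f (k * b) i)).card = k.val := by
  have hw : ∀ a t, t ≠ 0 → Weil p (pf ℤ (rho a t) (JD π sg f)) := by
    intro a t ht
    have := G.weil h H sg (a := a) ht (Or.inl G.sgo)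
    rwa [← G.hp] at this
  obtain ⟨β, hβ⟩ := plane G.l3 G.prim G.lp G.pl hR (JD π sg f)
    (by
      have := G.sum_pi (fun i => (sg i : ZMod l)) 0
        (fun j => by rw [sg.map_add_eq_mul, G.sgo]; simp) (fun _ => 1)
      simp only [mul_one, zero_mul] at this
      rw [aug_JD, this]; simp)
    (fun a => Or.inl (hw a 1 one_ne_zero))
  obtain ⟨b, hb, hk⟩ := stair G.two0 _ 0 β hβ
    (fun t ht => by
      rw [vv_add G.prim G.lp _ t univ (fun a _ => hw a t ht) (fun a ha => absurd (mem_univ a) ha),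
        card_univ, ZMod.card, mul_zero, add_zero])
    (fun t ht => by
      have a2 := vv_UU (ex := ex) (π := π) sg f t
      have a3 : (UU ex π (fun i => sg i * WW ex π f t i)).card ≠ 0 := by
        intro e0
        have := G.inv (fun i => sg i * WW ex π f t i) ∅
          (fun a _ => by
            by_contra hh
            exact absurd (mem_UU.2 hh) (by rw [card_eq_zero.1 e0]; simp)) 0
        simp [WW, G.o0, G.sgo, (ex.val_isUnit _).ne_zero] at this
      omega)
  refine ⟨b, hb, fun k k0 => ?_⟩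
  have a1 := hk k k0
  have a2 := vv_UU (ex := ex) (π := π) sg f (k * b)
  omega

end Pool.Agent.MP_dcfa1b_co.Sp

end
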