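import Pool.Agent.Mg.Fdcfa1ba.G5114a1

section

set_option autoImplicit false
open Finset AddMonoidAlgebra

namespace Pool.Agent.MP_dcfa1b_co.Sp

variable {l : ℕ} [Fact l.Prime] {p : ℕ} [Fact p.Prime] {ex : AddChar (ZMod l) (ZMod p)}
variable {A : Type*} [AddCommGroup A] [Fintype A] [DecidableEq A]
variable {π : A →+ ZMod l} {o : A} {e : AddChar A (ZMod p)} {sg : AddChar A ℤ}

lemma TT_eq (f : A ≃ A) (a t : ZMod l) :
    TT ex π (WW ex π f t) a = phi ex 1 (pf ℤ (rho a t) (JD π 1 f)) := by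
  rw [phi_JD]; simp

lemma Fl.TT_triv (G : Fl π o e ex sg) {f : A ≃ A} (h : Sd f) {d : ZMod l}
    (H : ∀ a, π (f a) - π (f (-a)) = d * π a) {t : ZMod l} (ht : t ≠ 0) {a : ZMod l}
    (ha : a = 0 ∨ a = -(t * d)) : TT ex π (WW ex π f t) a = -1 := by
  rw [TT_eq, (G.dich h H ht a).2 (by rcases ha with rfl | rfl <;> simp), map_add, map_zsmul,
    phi_nu G.prim one_ne_zero]
  simp

lemma val_eq_one {k : ZMod l} (h : k.val = 1) : k = 1 := by
  rw [← ZMod.natCast_zmod_val k, h, Nat.cast_one]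

lemma Fl.step4 (G : Fl π o e ex sg) {f : A ≃ A} (h : Sd f) {d : ZMod l}
    (H : ∀ a, π (f a) - π (f (-a)) = d * π a) {b : ZMod l} (hb : b ≠ 0)
    (h1 : (UU ex π (WW ex π f b)).card = 2) (h2 : (UU ex π (WW ex π f (2 * b))).card = 3) (j : A) :
    WW ex π f b j + WW ex π f b (j + o) = 2 + 2 * ex (b * d * π j) ∧
      (WW ex π f b j - WW ex π f b (j + o)) ^ 2 = 16 * ex (b * d * π j) := by
  have hd := G.d0 h H
  have hbd := mul_ne_zero hb hd
  have h20 := G.two0
  have hb2 := mul_ne_zero h20 hb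
  have m : ∀ t, t ≠ 0 → ∀ a, a = 0 ∨ a = -(t * d) → a ∈ UU ex π (WW ex π f t) := by
    intro t ht a ha
    rw [mem_UU, G.TT_triv h H ht ha]; simp
  have P1 : ∀ j, WW ex π f b j + WW ex π f b (j + o) = 2 + 2 * ex (b * d * π j) := by
    intro j
    have n1 : (0 : ZMod l) ≠ -(b * d) := (neg_ne_zero.2 hbd).symm
    have e1 : ({0, -(b * d)} : Finset (ZMod l)) = UU ex π (WW ex π f b) :=
      eq_of_subset_of_card_le (fun a ha => m b hb a (by simpa using ha))
        (by rw [h1, card_pair n1])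
    rw [G.inv _ {0, -(b * d)} (fun a ha => by rw [e1, mem_UU, not_not] at ha; exact ha),
      sum_pair n1, G.TT_triv h H hb (Or.inl rfl), G.TT_triv h H hb (Or.inr rfl)]
    simp
    ring
  have P2 : ∀ j, WW ex π f b j ^ 2 + WW ex π f b (j + o) ^ 2 =
      2 + 2 * ex (b * d * π j) ^ 2 - 2 * TT ex π (WW ex π f (2 * b)) (-(b * d)) * ex (b * d * π j) := by
    intro j
    have n1 : (0 : ZMod l) ≠ -(2 * b * d) := (neg_ne_zero.2 (mul_ne_zero hb2 hd)).symm
    have n2 : (0 : ZMod l) ≠ -(b * d) := (neg_ne_zero.2 hbd).symm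
    have n3 : -(2 * b * d) ≠ -(b * d) := fun e => hbd (by linear_combination -e)
    have hS : ∀ a ∉ ({0, -(2 * b * d), -(b * d)} : Finset (ZMod l)),
        TT ex π (WW ex π f (2 * b)) a = 0 := by
      intro a ha
      simp only [mem_insert, mem_singleton, not_or] at ha
      by_contra hh
      have e1 : ({0, -(2 * b * d), a} : Finset (ZMod l)) = UU ex π (WW ex π f (2 * b)) := by
        refine eq_of_subset_of_card_le (fun x hx => ?_) ?_
        · simp only [mem_insert, mem_singleton] at hx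
          rcases hx with e | e | e
          · exact m _ hb2 x (Or.inl e)
          · exact m _ hb2 x (Or.inr e)
          · exact mem_UU.2 (e ▸ hh)
        · rw [h2, card_eq_three.2 ⟨_, _, _, n1, Ne.symm ha.1, Ne.symm ha.2.1, rfl⟩]
      have e2 : -a - 2 * b * d ∈ UU ex π (WW ex π f (2 * b)) := by
        rw [mem_UU, TT_eq, ← J_symm H, ← TT_eq]; exact hh
      rw [← e1] at e2
      simp only [mem_insert, mem_singleton] at e2
      rcases e2 with e | e | e
      · exact ha.2.1 (by linear_combination -e)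
      · exact ha.1 (by linear_combination -e)
      · exact ha.2.2 (mul_left_cancel₀ h20 (by linear_combination -e))
    rw [← WW_two, ← WW_two, G.inv _ _ hS, sum_insert (by simp [n1, n2]), sum_pair n3,
      G.TT_triv h H hb2 (Or.inl rfl), G.TT_triv h H hb2 (Or.inr rfl), sq, ← ex.map_add_eq_mul,
      show b * d * π j + b * d * π j = - -(2 * b * d) * π j by ring]
    simp
    ring
  have a1 := P1 0
  have a2 := P2 0
  simp only [WW, if_true, map_zero, mul_zero, ex.map_zero_eq_one] at a1 a2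
  have a3 : TT ex π (WW ex π f (2 * b)) (-(b * d)) = -6 := by
    apply mul_left_cancel₀ G.twoF
    set z := (if 0 + o = 0 then 0 else ex (b * π (f (0 + o))))
    linear_combination a2 - (z + 4) * a1
  refine ⟨P1 j, ?_⟩
  have b1 := P1 j
  have b2 := P2 j
  rw [a3] at b2
  linear_combination 2 * b2 - (WW ex π f b j + WW ex π f b (j + o) + 2 + 2 * ex (b * d * π j)) * b1

omit [DecidableEq A] in
lemma Fl.ex_nat (G : Fl π o e ex sg) (t : ℕ) (i : A) : ex (t * π i) = (e i ^ t) ^ 2 := by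
  rw [← nsmul_eq_mul, AddChar.map_nsmul_eq_pow, G.exπ, pow_right_comm]

omit [DecidableEq A] in
lemma Fl.el (G : Fl π o e ex sg) (i : A) : (e i ^ l) ^ 2 = 1 := by
  rw [← G.ex_nat]; simp

lemma Fl.main (G : Fl π o e ex sg) (hR : Reg l p) {f : A ≃ A} (h : Sd f) {d : ZMod l}
    (H : ∀ a, π (f a) - π (f (-a)) = d * π a) :
    ∃ b : ZMod l, b ≠ 0 ∧ (∀ t, t ≠ 0 → (UU ex π (WW ex π f t)).card ≤ 2 → t = b) ∧
      ∀ t : ℕ, Odd t → (t : ZMod l) = b * d → ∀ i, i ≠ 0 → ex (b * π (f i)) = (1 - e i ^ t) ^ 2 := by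
  obtain ⟨b, hb, hk⟩ := G.stair1 hR h H
  obtain ⟨b', hb', hk'⟩ := G.stair0 hR h H
  have v1 : (1 : ZMod l).val = 1 := ZMod.val_one l
  have v2 : (2 : ZMod l).val = 2 := ZMod.val_ofNat_of_lt G.l3
  have uniq : ∀ t, t ≠ 0 → (UU ex π (WW ex π f t)).card ≤ 2 → t = b := by
    intro t ht hc
    have k0 : t * b⁻¹ ≠ 0 := mul_ne_zero ht (inv_ne_zero hb)
    have a1 := hk _ k0
    rw [inv_mul_cancel_right₀ hb] at a1
    have a2 := (ZMod.val_ne_zero _).2 k0
    exact (mul_inv_eq_one₀ hb).1 (val_eq_one (by omega))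
  refine ⟨b, hb, uniq, fun t hto ht i hi => ?_⟩
  have c1 := hk' 1 one_ne_zero
  have c2 := hk' 2 G.two0
  rw [one_mul, v1, card_eq_one] at c1
  obtain ⟨a₀, ha₀⟩ := c1
  set c := TT ex π (fun i => sg i * WW ex π f b' i) a₀ with hc
  have c0 : c ≠ 0 := mem_UU.1 (ha₀ ▸ mem_singleton_self a₀)
  have O1 : ∀ j, (sg j : ZMod p) * (WW ex π f b' j - WW ex π f b' (j + o)) =
      -2 * c * ex (-a₀ * π j) := by
    intro j
    have := G.inv (fun i => sg i * WW ex π f b' i) {a₀}
      (fun a ha => by rw [← ha₀, mem_UU, not_not] at ha; exact ha) j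
    rw [sum_singleton, sg.map_add_eq_mul, G.sgo] at this
    push_cast at this
    linear_combination this
  have O2 : ∀ a, TT ex π (fun i => sg i * WW ex π f (2 * b') i) a =
      -2 * c * TT ex π (WW ex π f b') (a - a₀) := by
    intro a
    apply mul_left_cancel₀ G.twoF
    rw [G.symz, mul_left_comm, G.symz, mul_sum]
    refine sum_congr rfl fun j _ => ?_
    rw [WW_two, WW_two, sg.map_add_eq_mul, G.sgo, show (a - a₀) * π j = a * π j + -a₀ * π j by ring,
      ex.map_add_eq_mul]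
    push_cast
    linear_combination ex (a * π j) * (WW ex π f b' j + WW ex π f b' (j + o)) * O1 j
  have e1 : b' = b := by
    refine uniq b' hb' ?_
    rw [v2] at c2
    rw [← c2]
    refine card_le_card_of_injOn (fun a => a + a₀) (fun a ha => ?_) (add_left_injective a₀).injOn
    rw [mem_coe, mem_UU] at ha ⊢
    rw [O2, add_sub_cancel_right]
    exact mul_ne_zero (mul_ne_zero (neg_ne_zero.2 G.twoF) c0) ha
  subst e1
  have d1 := hk 1 one_ne_zero
  have d2 := hk 2 G.two0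
  rw [one_mul, v1] at d1
  rw [v2] at d2
  have s4 := G.step4 h H hb d1 d2
  have c2 : c = 2 := by
    have a1 := (s4 0).1
    have a2 := O1 0
    simp only [WW, if_true, map_zero, mul_zero, ex.map_zero_eq_one, sg.map_zero_eq_one] at a1 a2
    apply mul_left_cancel₀ G.twoF
    push_cast at a2
    linear_combination a1 + a2
  obtain ⟨p1, p2⟩ := s4 i
  have p3 := O1 i
  rw [← ht, G.ex_nat] at p1 p2
  rw [c2, G.sgF] at p3
  have q1 := G.el i
  have q2 : ex (-a₀ * π i) ^ l = 1 := by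
    rw [← AddChar.map_nsmul_eq_pow, nsmul_eq_mul, ZMod.natCast_self, zero_mul, ex.map_zero_eq_one]
  have hodd : Odd l := (Fact.out : l.Prime).odd_of_ne_two (by have := G.l3; omega)
  have op : ∀ n, Odd n → (e i ^ l) ^ n = e i ^ l := by
    rintro n ⟨k, rfl⟩
    rw [pow_succ, pow_mul, q1, one_pow, one_mul]
  have p4 : WW ex π f b' i - WW ex π f b' (i + o) = -4 * (e i ^ l * ex (-a₀ * π i)) := by
    linear_combination e i ^ l * p3 - (WW ex π f b' i - WW ex π f b' (i + o)) * q1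
  have h4 : (4 : ZMod p) ≠ 0 := by
    have := mul_ne_zero G.twoF G.twoF
    norm_num at this ⊢; exact this
  have p5 : e i ^ l * ex (-a₀ * π i) = e i ^ t := by
    have : (e i ^ l * ex (-a₀ * π i)) ^ 2 = (e i ^ t) ^ 2 := by
      apply mul_left_cancel₀ (mul_ne_zero h4 h4)
      rw [p4] at p2
      linear_combination p2
    rcases sq_eq_sq_iff_eq_or_eq_neg.1 this with e1 | e1
    · exact e1
    · exfalso
      have e2 := congrArg (· ^ l) e1
      simp only [mul_pow, q2, op l hodd, hodd.neg_pow, mul_one, pow_right_comm _ t, op t hto] at e2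
      have e3 : 2 * e i ^ l = 0 := by linear_combination e2
      rcases mul_eq_zero.1 e3 with e4 | e4
      · exact G.twoF e4
      · rw [e4] at q1; simp at q1
  rw [p5] at p4
  have : WW ex π f b' i = ex (b' * π (f i)) := if_neg hi
  apply mul_left_cancel₀ G.twoF
  rw [← this]
  linear_combination p1 + p4

omit [DecidableEq A] in
lemma Fl.pow_inj (G : Fl π o e ex sg) {t : ℕ} (hto : Odd t) (ht : (t : ZMod l) ≠ 0) :
    Function.Injective (fun i => e i ^ t) := by
  intro i j hij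
  have h0 : e j ^ t ≠ 0 := pow_ne_zero _ (e.val_isUnit j).ne_zero
  have h1 : e (i - j) ^ t = 1 := by
    apply mul_right_cancel₀ h0
    rw [← mul_pow, ← e.map_add_eq_mul, sub_add_cancel, one_mul]
    exact hij
  have h2 : (t : ZMod l) * π (i - j) = 0 :=
    ex_inj G.prim (by rw [G.ex_nat, h1, ex.map_zero_eq_one, one_pow])
  rcases (G.ker _).1 ((mul_eq_zero.1 h2).resolve_left ht) with e1 | e1
  · exact sub_eq_zero.1 e1
  · rw [e1, G.eo, hto.neg_one_pow] at h1
    exact absurd (by linear_combination -h1) G.twoF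

omit [DecidableEq A] in
lemma Fl.image (G : Fl π o e ex sg) {t : ℕ} (hto : Odd t) (ht : (t : ZMod l) ≠ 0) :
    univ.image (fun i => e i ^ t) = univ.erase 0 := by
  refine eq_of_subset_of_card_le (fun x hx => ?_) ?_
  · obtain ⟨i, -, rfl⟩ := mem_image.1 hx
    exact mem_erase.2 ⟨pow_ne_zero _ (e.val_isUnit i).ne_zero, mem_univ _⟩
  · rw [card_image_of_injective _ (G.pow_inj hto ht), card_erase_of_mem (mem_univ _), card_univ,
      card_univ, ZMod.card, G.card, G.hp]
    omega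

lemma exists_odd (hl : 3 ≤ l) (c : ZMod l) : ∃ t : ℕ, Odd t ∧ (t : ZMod l) = c := by
  rcases Nat.even_or_odd c.val with h | h
  · exact ⟨c.val + l, h.add_odd ((Fact.out : l.Prime).odd_of_ne_two (by omega)), by simp⟩
  · exact ⟨c.val, h, by simp⟩

lemma Fl.golomb (G : Fl π o e ex sg) (hR : Reg l p) {f : A ≃ A} (h : Sd f) {d : ZMod l}
    (H : ∀ a, π (f a) - π (f (-a)) = d * π a) :
    ∃ t s : ℕ, (Odd t ∧ (t : ZMod l) ≠ 0) ∧ (Odd s ∧ (s : ZMod l) ≠ 0) ∧
      ∀ i, i ≠ 0 → e i ^ t + e (f i) ^ s = 1 := by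
  have hd := G.d0 h H
  obtain ⟨b, hb, -, h1⟩ := G.main hR h H
  obtain ⟨b', -, hu, h2⟩ := G.main hR h.symm (G.H_symm h hd H)
  obtain ⟨t, hto, ht⟩ := exists_odd G.l3 (b * d)
  obtain ⟨s, hso, hs⟩ := exists_odd G.l3 b
  have ht0 : (t : ZMod l) ≠ 0 := ht ▸ mul_ne_zero hb hd
  have e1 : b * d = b' := by
    refine hu _ (mul_ne_zero hb hd) ((card_le_card (t := {0, -b}) fun c hc => ?_).trans card_le_two)
    by_contra hh
    simp only [mem_insert, mem_singleton, not_or] at hh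
    refine mem_UU.1 hc ?_
    have k0 : c * b⁻¹ ≠ 0 := mul_ne_zero hh.1 (inv_ne_zero hb)
    have k1 := (ZMod.val_ne_zero _).2 k0
    have k2 : (c * b⁻¹).val + 1 < l := by
      have a1 := ZMod.val_lt (c * b⁻¹)
      by_contra h3
      have a2 : (((c * b⁻¹).val + 1 : ℕ) : ZMod l) = 0 := by
        rw [show (c * b⁻¹).val + 1 = l by omega, ZMod.natCast_self]
      rw [Nat.cast_add, ZMod.natCast_zmod_val, Nat.cast_one] at a2
      apply hh.2
      field_simp at a2
      linear_combination a2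
    set k := (c * b⁻¹).val with hk
    have a3 := bsum0 (l := p) 2 (2 * k) (by rw [G.hp]; omega) 1 (-1)
    rw [← add_sum_erase _ _ (mem_univ (0 : ZMod p)), ← G.image hto ht0,
      sum_image (G.pow_inj hto ht0).injOn] at a3
    simp only [ne_eq, OfNat.ofNat_ne_zero, not_false_eq_true, zero_pow, zero_mul, zero_add] at a3
    rw [← a3, TT]
    symm
    refine Fintype.sum_equiv f _ _ fun i => ?_
    by_cases hi : i = 0
    · simp [hi, WW, h.1, show k ≠ 0 from k1]
    · have : c * π (f i) = k • (b * π (f i)) := by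
        rw [nsmul_eq_mul, hk, ZMod.natCast_zmod_val]; field_simp
      rw [WW, if_neg (ne0 h.1 hi), Equiv.symm_apply_apply, this, AddChar.map_nsmul_eq_pow,
        h1 t hto ht i hi, ← ht, G.ex_nat, pow_mul]
      ring
  refine ⟨t, s, ⟨hto, ht0⟩, ⟨hso, hs ▸ hb⟩, fun i hi => ?_⟩
  have a1 := h1 t hto ht i hi
  have a2 := h2 s hso (by rw [hs, ← e1]; field_simp) (f i) (ne0 h.1 hi)
  rw [← hs, G.ex_nat] at a1
  rw [Equiv.symm_apply_apply, ← e1, ← ht, G.ex_nat] at a2
  rcases sq_eq_sq_iff_eq_or_eq_neg.1 a1 with e2 | e2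
  · linear_combination e2
  · exfalso
    rw [e2] at a2
    have a3 : e i ^ t = e 0 ^ t := by
      apply mul_left_cancel₀ (mul_ne_zero G.twoF G.twoF)
      rw [e.map_zero_eq_one, one_pow]
      linear_combination a2
    exact hi (G.pow_inj hto ht0 a3)

end Pool.Agent.MP_dcfa1b_co.Sp

end

section

set_option autoImplicit false
open Finset AddMonoidAlgebra

namespace Pool.Agent.MP_dcfa1b_co.Sp

variable {l : ℕ} [Fact l.Prime] {p : ℕ} [Fact p.Prime] {ex : AddChar (ZMod l) (ZMod p)}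
variable {A : Type*} [AddCommGroup A] [Fintype A] [DecidableEq A]
variable {π : A →+ ZMod l} {o : A} {e : AddChar A (ZMod p)} {sg : AddChar A ℤ}

lemma Fl.classical (G : Fl π o e ex sg) :
    ∃ f : A ≃ A, Sd f ∧ (∀ a, π (f a) - π (f (-a)) = 1 * π a) ∧ ∀ i, i ≠ 0 → e (f i) = 1 - e i := by
  have e0 : ∀ i, e i ≠ 0 := fun i => (e.val_isUnit i).ne_zero
  have e1 : ∀ i, i ≠ 0 → 1 - e i ≠ 0 := fun i hi h =>
    hi (G.einj (by rw [e.map_zero_eq_one]; linear_combination -h))
  have hs : ∀ i, i ≠ 0 → ∃ j, e j = 1 - e i := by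
    intro i hi
    have : 1 - e i ∈ univ.image (fun i => e i ^ 1) := by
      rw [G.image odd_one (by simp)]; exact mem_erase.2 ⟨e1 i hi, mem_univ _⟩
    simpa using this
  choose! F hF using hs
  let F' : A → A := fun i => if i = 0 then 0 else F i
  have h1 : ∀ i, i ≠ 0 → e (F' i) = 1 - e i := fun i hi => by simp only [F', if_neg hi, hF i hi]
  have h2 : ∀ i, i ≠ 0 → F' i ≠ 0 := fun i hi h => by
    have := h1 i hi
    rw [h, e.map_zero_eq_one] at this
    exact e0 i (by linear_combination this)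
  have h0 : F' 0 = 0 := if_pos rfl
  have inv : Function.Involutive F' := by
    intro i
    by_cases hi : i = 0
    · rw [hi, h0, h0]
    · exact G.einj (by rw [h1 _ (h2 i hi), h1 i hi]; ring)
  refine ⟨inv.toPerm F', ⟨h0, fun i j k m hi hj hk hm hij a1 a2 => ?_⟩, fun a => ?_, h1⟩
  · simp only [Function.Involutive.coe_toPerm] at a2
    rw [sub_eq_sub_iff_add_eq_add] at a1 a2
    have b1 := congrArg e a1
    have b2 := congrArg e a2
    simp only [e.map_add_eq_mul, h1 i hi, h1 j hj, h1 k hk, h1 m hm] at b1 b2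
    have : (e i - e k) * (e i - e j) = 0 := by linear_combination (e i - 1) * b1 - e i * b2
    exact G.einj (sub_eq_zero.1 ((mul_eq_zero.1 this).resolve_right
      fun h => hij (G.einj (sub_eq_zero.1 h))))
  · simp only [Function.Involutive.coe_toPerm]
    by_cases ha : a = 0
    · simp [ha]
    rw [one_mul, sub_eq_iff_eq_add]
    apply ex_inj G.prim
    have : e a * e (-a) = 1 := by rw [← e.map_add_eq_mul, add_neg_cancel, e.map_zero_eq_one]
    rw [ex.map_add_eq_mul, G.exπ, G.exπ, G.exπ, h1 a ha, h1 _ (neg_ne_zero.2 ha)]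
    linear_combination (2 * e a - e a * e (-a) - 1) * this

lemma Fl.reg (G : Fl π o e ex sg) (hR : ∀ k, Even k → 2 ≤ k → k + 2 < l →
    ∏ i ∈ univ.erase 0, ((1 - e i) ^ 2) ^ (π i ^ k).val ≠ 1) : Reg l p := by
  intro k hke hk hk2
  obtain ⟨f, h, H, hf⟩ := G.classical
  refine exists_beta k (by omega) hk2 (JD π 1 f) (by rw [aug_JD]; simp [G.card]) (fun b => ?_) 2
    (G.J0' f one_ne_zero) fun h0 => hR k hke hk hk2 ?_
  · by_cases hb : b = 0
    · exact Or.inr ⟨2, by rw [hb, G.J0' f one_ne_zero]⟩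
    · by_cases ha : (1 : ZMod l) ≠ 0 ∧ 1 + b * 1 ≠ 0
      · exact Or.inl ((G.dich h H hb 1).1 ha)
      · exact Or.inr ⟨2, (G.dich h H hb 1).2 ha⟩
  · simp only [JD, map_sum, red_single, th_single, pf_single, mu_single, rho_apply, Pi.one_apply,
      Int.cast_one, one_mul, zero_mul, add_zero, AddMonoidHom.coe_snd] at h0
    have hs := map_prod ex.toMonoidHom (fun i => Multiplicative.ofAdd (π (f i) * π i ^ k))
      (univ.erase 0)
    rw [← ofAdd_sum, h0, ofAdd_zero, map_one] at hs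
    refine Eq.trans (prod_congr rfl fun i hi => ?_) hs.symm
    change _ = ex (π (f i) * π i ^ k)
    rw [← hf i (ne_of_mem_erase hi), ← G.exπ, ← AddChar.map_nsmul_eq_pow, nsmul_eq_mul,
      ZMod.natCast_zmod_val, mul_comm]

lemma Gp.symmetric (G : Gp π o) (hl : 5 ≤ l) {f : A ≃ A} (h : Sd f) (hf : ∀ i, f (f i) = i)
    (a : A) : π (f a) - π (f (-a)) = 1 * π a := by
  set Δ := (univ.erase (0 : A)).filter (fun i => f i = i) with hΔ
  have mΔ : ∀ i, i ∈ Δ ↔ i ≠ 0 ∧ f i = i := by simp [hΔ]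
  have inj : ∀ i j, i ≠ 0 → j ≠ 0 → i - f i ≠ 0 → i - f i = j - f j → i = j := by
    intro i j hi hj h0 e
    exact h.2 i (f i) j (f j) hi (ne0 h.1 hi) hj (ne0 h.1 hj) (sub_ne_zero.1 h0) e
      (by rw [hf, hf, ← neg_sub, e, neg_sub])
  set Z := univ.filter (fun s : A => ∀ i, i ≠ 0 → i - f i ≠ s ∨ s = 0) with hZ
  have mZ : ∀ s, s ∈ Z ↔ ∀ i, i ≠ 0 → i - f i ≠ s ∨ s = 0 := by simp [hZ]
  have Z0 : (0 : A) ∈ Z := (mZ 0).2 fun _ _ => Or.inr rfl
  have Zn : ∀ s ∈ Z, -s ∈ Z := by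
    intro s hs
    refine (mZ _).2 fun i hi => ((mZ s).1 hs (f i) (ne0 h.1 hi)).imp (fun c e => c ?_) (by simp)
    rw [hf, ← neg_sub, e, neg_neg]
  set T : A → ℤ := fun s => ∑ i ∈ univ.erase (0 : A), if i - f i = s then 1 else 0 with hT
  set z : A → ℤ := fun s => if s ∈ Z then 1 else 0 with hz
  have T1 : ∀ s, T s = 1 - z s + if s = 0 then (Δ.card : ℤ) else 0 := by
    intro s
    by_cases s0 : s = 0
    · simp only [hT, hz, s0, Z0, if_true, sub_eq_zero, hΔ, card_filter, eq_comm (a := f _)]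
      push_cast; ring
    by_cases sZ : s ∈ Z
    · simp only [hT, hz, sZ, s0, if_true, if_false, sub_self, add_zero]
      exact sum_eq_zero fun i hi => if_neg (((mZ s).1 sZ i (ne_of_mem_erase hi)).resolve_right s0)
    · simp only [hT, hz, sZ, s0, if_false, sub_zero, add_zero]
      rw [mZ] at sZ
      push Not at sZ
      obtain ⟨i, hi, e, -⟩ := sZ
      rw [sum_eq_single i, if_pos e]
      · intro j hj hji
        exact if_neg fun (e' : j - f j = s) =>
          hji (inj j i (ne_of_mem_erase hj) hi (e' ▸ s0) (e'.trans e.symm))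
      · intro hh; exact absurd (mem_erase.2 ⟨hi, mem_univ _⟩) hh
  have cA := card_erase_add_one (mem_univ (0 : A))
  rw [card_univ] at cA
  have zs : ∑ s, z s = Z.card := by simp [hz]
  have cZ : Z.card = Δ.card + 1 := by
    have a1 : ∑ s, T s = (univ.erase (0 : A)).card := by
      simp only [hT]; rw [sum_comm]; simp
    simp only [T1, sum_add_distrib, sum_sub_distrib, zs, sum_ite_eq', mem_univ, if_true, sum_const,
      card_univ, nsmul_eq_mul, mul_one] at a1
    omega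
  have Za : ∀ s ∈ Z, ∀ s' ∈ Z, s + s' ∈ Z := by
    intro s hs s' hs'
    by_contra ht
    set t := s + s' with htd
    have t0 : t ≠ 0 := fun e => ht (e ▸ Z0)
    have tn : -t ∉ Z := fun e => ht (neg_neg t ▸ Zn _ e)
    set P := ((univ.erase (0 : A)) ×ˢ (univ.erase (0 : A))).filter
      (fun x => x.1 - f x.1 = (x.2 - f x.2) + t) with hP
    have b1 : ∑ u, T (u + t) * T u = P.card := by
      simp only [hT, sum_mul_sum, hP, card_filter, sum_product]
      rw [sum_comm]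
      push_cast
      refine sum_congr rfl fun i _ => ?_
      rw [sum_comm]
      refine sum_congr rfl fun j _ => ?_
      rw [sum_eq_single (j - f j) (fun u _ hu => by rw [if_neg (Ne.symm hu), mul_zero]) (by simp)]
      simp
    have b2 : P.card ≤ (rowS (-t)).card := by
      refine card_le_card_of_injOn (fun x => x.1 - x.2) (fun x hx => ?_) (fun x hx y hy e => ?_)
      · obtain ⟨-, c⟩ := mem_filter.1 hx
        refine mem_coe.2 (mem_rowS.2 ⟨fun e => t0 ?_, fun e => t0 ?_⟩)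
        · rw [sub_eq_zero.1 e] at c; simpa using c
        · have c2 : t = x.1 - x.2 := (add_neg_eq_zero.1 e).symm
          have c3 : f x.1 = f x.2 := by
            rw [c2] at c
            rw [← sub_eq_zero] at c ⊢
            rw [← neg_eq_zero, ← c]; abel
          rw [c2, f.injective c3, sub_self]
      · obtain ⟨c0, c⟩ := mem_filter.1 hx
        obtain ⟨d0, d⟩ := mem_filter.1 hy
        simp only [mem_product, mem_erase, mem_univ, and_true] at c0 d0
        have n1 : x.1 ≠ x.2 := fun e => t0 (by rw [e] at c; simpa using c)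
        have e' : x.1 - x.2 = y.1 - y.2 := e
        have e2 := h.2 _ _ _ _ c0.1 c0.2 d0.1 d0.2 n1 e'
          (by linear_combination (norm := abel) e' - c + d)
        exact Prod.ext e2 (by rw [e2] at e'; exact sub_right_injective e')
    have b3 := card_rowS (neg_ne_zero.2 t0)
    have b4 : ∑ u, T (u + t) * T u = Fintype.card A - 2 + ∑ u, z (u + t) * z u := by
      have c1 : ∑ u, z (u + t) = Z.card :=
        zs ▸ Fintype.sum_equiv (Equiv.addRight t) _ _ fun _ => rfl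
      have c2 : z t = 0 := if_neg ht
      have c3 : z (-t) = 0 := if_neg tn
      simp only [T1, add_mul, mul_add, sub_mul, mul_sub, sum_add_distrib, sum_sub_distrib, ite_mul,
        mul_ite, add_eq_zero_iff_eq_neg, sum_ite_eq', mem_univ, if_true, one_mul, mul_one, zs, c1,
        zero_add, c2, c3, sum_const, card_univ, nsmul_eq_mul, zero_mul, mul_zero, cZ,
        if_neg (neg_ne_zero.2 t0).symm]
      push_cast
      ring
    have b5 : z (-s' + t) * z (-s') ≤ ∑ u, z (u + t) * z u :=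
      single_le_sum (f := fun u => z (u + t) * z u)
        (fun u _ => by simp only [hz]; split_ifs <;> simp) (mem_univ _)
    rw [show -s' + t = s by rw [htd]; abel] at b5
    simp only [hz, hs, Zn _ hs', if_true] at b5 b4
    omega
  let K : AddSubgroup A :=
    { carrier := Z
      add_mem' := fun {a b} ha hb => Za a ha b hb
      zero_mem' := Z0
      neg_mem' := fun {a} ha => Zn a ha }
  have dv : Δ.card + 1 ∣ 2 * l := by
    have := AddSubgroup.card_addSubgroup_dvd_card K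
    rw [Nat.card_eq_fintype_card (α := A), G.card] at this
    rwa [← cZ, ← Nat.card_eq_finsetCard]
  have bd : Δ.offDiag.card ≤ (univ.erase (0 : A)).card := by
    refine card_le_card_of_injOn (fun x => x.1 - x.2) (fun x hx => ?_) (fun x hx y hy e => ?_)
    · exact mem_coe.2 (mem_erase.2 ⟨sub_ne_zero.2 (mem_offDiag.1 hx).2.2, mem_univ _⟩)
    · obtain ⟨c1, c2, c3⟩ := mem_offDiag.1 hx
      obtain ⟨d1, d2, -⟩ := mem_offDiag.1 hy
      rw [mΔ] at c1 c2 d1 d2
      have e' : x.1 - x.2 = y.1 - y.2 := e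
      have e2 := h.2 _ _ _ _ c1.1 c2.1 d1.1 d2.1 c3 e' (by rw [c1.2, c2.2, d1.2, d2.2, e'])
      exact Prod.ext e2 (by rw [e2] at e'; exact sub_right_injective e')
  have k1 : Δ.card ≤ 1 := by
    rw [offDiag_card] at bd
    have := G.card
    by_cases hc : l ∣ Δ.card + 1
    · have a1 := Nat.le_of_dvd (by omega) hc
      exfalso
      have a2 : Δ.card * Δ.card ≤ Δ.card + 2 * l := by omega
      nlinarith
    · have := Nat.le_of_dvd two_pos ((Nat.Coprime.symm
        ((Nat.Prime.coprime_iff_not_dvd Fact.out).2 hc)).dvd_of_dvd_mul_right dv)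
      omega
  by_cases ha : a = 0
  · simp [ha]
  have : a = gam f a := (h.gam_iff ha).2 ⟨ha, fun j a1 a2 e => by
    have a3 : f (j + a) = f j + a := sub_eq_iff_eq_add'.1 e
    have a4 : f (f j + a) = j + a := by rw [← a3, hf]
    have a5 := h.2 (j + a) j (f j + a) (f j) a2 a1 (a3 ▸ ne0 h.1 a2) (ne0 h.1 a1)
      (by simpa using ha) (by simp) (by rw [e, a4, hf]; simp)
    have a6 : f j = j := (add_right_cancel a5).symm
    have := card_le_one.1 k1 (j + a) ((mΔ _).2 ⟨a2, by rw [a3, a6]⟩) j ((mΔ _).2 ⟨a1, a6⟩)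
    exact ha (by simpa using this)⟩
  conv_rhs => rw [this, gam, G.sum, map_sub, map_add, G.po, zero_add, one_mul]

end Pool.Agent.MP_dcfa1b_co.Sp

end

section

set_option autoImplicit false
open Finset

namespace Pool.Agent.MP_dcfa1b_co.Sp

lemma mod_two (N x : ℕ) (hx : x < 2 * N) : (x % N = x ∧ x < N) ∨ (x % N + N = x ∧ N ≤ x) := by
  by_cases h : x < N
  · left; exact ⟨Nat.mod_eq_of_lt h, h⟩
  · right
    refine ⟨?_, by omega⟩
    rw [Nat.mod_eq_sub_mod (by omega), Nat.mod_eq_of_lt (by omega)]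
    omega

lemma shift (N i j k l : ℕ) (hi : i < N) (hj : j < N) (hk : k < N) (hl : l < N)
    (h : i + l ≡ k + j [MOD N]) (hne : ¬ (l = i ∧ k = j)) :
    ∃ s : ℕ, (((i + s) % N : ℕ) : ℤ) - (((j + s) % N : ℕ) : ℤ) =
      (((k + s) % N : ℕ) : ℤ) - (((l + s) % N : ℕ) : ℤ) := by
  have h1 := mod_two N (i + l) (by omega)
  have h2 := mod_two N (k + j) (by omega)
  unfold Nat.ModEq at h
  have key : ∀ y, y ≤ N → (i + l = k + j ∧ y = N ∨
      (i + l = k + j + N ∧ ((j < y ∧ y ≤ i ∧ (y ≤ k ∨ l < y)) ∨ (k < y ∧ y ≤ l ∧ (y ≤ j ∨ i < y)))) ∨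
      (i + l + N = k + j ∧ ((i < y ∧ y ≤ j ∧ (y ≤ l ∨ k < y)) ∨ (l < y ∧ y ≤ k ∧ (y ≤ i ∨ j < y))))) →
      ∃ s : ℕ, (((i + s) % N : ℕ) : ℤ) - (((j + s) % N : ℕ) : ℤ) =
        (((k + s) % N : ℕ) : ℤ) - (((l + s) % N : ℕ) : ℤ) := by
    intro y hy hc
    refine ⟨N - y, ?_⟩
    have a1 := mod_two N (i + (N - y)) (by omega)
    have a2 := mod_two N (j + (N - y)) (by omega)
    have a3 := mod_two N (k + (N - y)) (by omega)
    have a4 := mod_two N (l + (N - y)) (by omega)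
    generalize (i + (N - y)) % N = b1 at *
    generalize (j + (N - y)) % N = b2 at *
    generalize (k + (N - y)) % N = b3 at *
    generalize (l + (N - y)) % N = b4 at *
    clear h h1 h2 hne
    rcases hc with hc | ⟨hc, hc2 | hc2⟩ | ⟨hc, hc2 | hc2⟩ <;> omega
  have h3 : i + l = k + j ∨ i + l = k + j + N ∨ i + l + N = k + j := by omega
  clear h h1 h2
  rcases h3 with h3 | h3 | h3
  · exact key N le_rfl (Or.inl ⟨h3, rfl⟩)
  · rcases lt_trichotomy i l with c | c | c
    · exact key l (by omega) (Or.inr (Or.inl ⟨h3, by omega⟩))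
    · rcases lt_trichotomy j k with c' | c' | c'
      · exact key k (by omega) (Or.inr (Or.inl ⟨h3, by omega⟩))
      · omega
      · exact key j (by omega) (Or.inr (Or.inl ⟨h3, by omega⟩))
    · exact key i (by omega) (Or.inr (Or.inl ⟨h3, by omega⟩))
  · rcases lt_trichotomy j k with c | c | c
    · exact key k (by omega) (Or.inr (Or.inr ⟨h3, by omega⟩))
    · rcases lt_trichotomy i l with c' | c' | c'
      · exact key l (by omega) (Or.inr (Or.inr ⟨h3, by omega⟩))
      · omega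
      · exact key i (by omega) (Or.inr (Or.inr ⟨h3, by omega⟩))
    · exact key j (by omega) (Or.inr (Or.inr ⟨h3, by omega⟩))

variable {l : ℕ} [Fact l.Prime]

lemma gp_zmod (hl : 3 ≤ l) [NeZero (2 * l)] :
    Gp (ZMod.castHom (dvd_mul_left l 2) (ZMod l)).toAddMonoidHom ((l : ℕ) : ZMod (2 * l)) := by
  have vl : ((l : ℕ) : ZMod (2 * l)).val = l := ZMod.val_cast_of_lt (by omega)
  have o0 : ((l : ℕ) : ZMod (2 * l)) ≠ 0 := by
    intro e; rw [e, ZMod.val_zero] at vl; omega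
  have key : ∀ i : ZMod (2 * l), l ∣ i.val → i = 0 ∨ i = l := by
    rintro i ⟨c, hc⟩
    have := ZMod.val_lt i
    have h2 : c < 2 := by
      by_contra hh
      have : l * 2 ≤ l * c := Nat.mul_le_mul_left _ (by omega)
      omega
    rw [← ZMod.natCast_zmod_val i, hc]
    interval_cases c <;> simp
  have oo : ((l : ℕ) : ZMod (2 * l)) + l = 0 := by
    rw [← two_mul]; exact_mod_cast ZMod.natCast_self (2 * l)
  refine ⟨ZMod.card _, fun i => ?_, o0, ZMod.castHom_surjective (dvd_mul_left l 2), ?_, hl⟩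
  · constructor
    · intro h
      apply key
      rw [← ZMod.natCast_eq_zero_iff, ← h, ZMod.natCast_val]
      rfl
    · rintro (rfl | rfl)
      · simp
      · change ZMod.castHom (dvd_mul_left l 2) (ZMod l) _ = 0
        rw [map_natCast, ZMod.natCast_self]
  · rw [← add_sum_erase _ _ (mem_univ ((l : ℕ) : ZMod (2 * l))), add_eq_left]
    refine sum_involution (fun c _ => -c) (fun c _ => add_neg_cancel c) (fun c hc h0 e => ?_)
      (fun c hc => ?_) (fun c _ => neg_neg c)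
    · have h1 : ((2 * c.val : ℕ) : ZMod (2 * l)) = 0 := by
        push_cast; rw [ZMod.natCast_zmod_val]; linear_combination -e
      rw [ZMod.natCast_eq_zero_iff] at h1
      exact (key c (Nat.dvd_of_mul_dvd_mul_left two_pos h1)).elim h0 (ne_of_mem_erase hc)
    · refine mem_erase.2 ⟨fun e => ne_of_mem_erase hc ?_, mem_univ _⟩
      linear_combination -e - oo

variable {p : ℕ} [Fact p.Prime]

lemma exists_gen (hl : 3 ≤ l) (hp : p = 2 * l + 1) :
    ∃ g : ZMod p, g ^ 2 = 4 ∧ g ^ l = -1 ∧ orderOf g = 2 * l := by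
  have nz : ∀ m : ℕ, 0 < m → m < 7 → (m : ZMod p) ≠ 0 := fun m h1 h2 e =>
    absurd (Nat.le_of_dvd h1 ((ZMod.natCast_eq_zero_iff _ _).1 e)) (by omega)
  have h2 : (2 : ZMod p) ≠ 0 := by exact_mod_cast nz 2 (by omega) (by omega)
  have h3 : (3 : ZMod p) ≠ 0 := by exact_mod_cast nz 3 (by omega) (by omega)
  have hodd : Odd l := (Fact.out : l.Prime).odd_of_ne_two (by omega)
  have h1 : (2 : ZMod p) ^ l * 2 ^ l = 1 := by
    rw [← pow_add, ← ZMod.pow_card_sub_one_eq_one h2]; congr 1; omega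
  obtain ⟨g, g2, gl⟩ : ∃ g : ZMod p, g ^ 2 = 4 ∧ g ^ l = -1 := by
    rcases mul_self_eq_one_iff.1 h1 with e | e
    · exact ⟨-2, by norm_num, by rw [hodd.neg_pow, e]⟩
    · exact ⟨2, by norm_num, e⟩
  refine ⟨g, g2, gl, orderOf_eq_of_pow_and_pow_div_prime (by omega)
    (by rw [mul_comm, pow_mul, gl]; norm_num) fun q hq hd => ?_⟩
  rcases (Nat.Prime.dvd_mul hq).1 hd with h | h
  · rw [(Nat.prime_dvd_prime_iff_eq hq Nat.prime_two).1 h, Nat.mul_div_cancel_left _ two_pos, gl]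
    exact fun e => h2 (by linear_combination -e)
  · rw [(Nat.prime_dvd_prime_iff_eq hq Fact.out).1 h, Nat.mul_div_cancel _ (by omega), g2]
    exact fun e => h3 (by linear_combination e)

lemma fl_zmod (hl : 3 ≤ l) (hp : p = 2 * l + 1) [NeZero (2 * l)] {g : ZMod p} (gl : g ^ l = -1)
    (go : orderOf g = 2 * l) (h1 : g ^ (2 * l) = 1) (h2 : (g ^ 2) ^ l = 1)
    (h3 : (-1 : ℤ) ^ (2 * l) = 1) :
    Fl (ZMod.castHom (dvd_mul_left l 2) (ZMod l)).toAddMonoidHom ((l : ℕ) : ZMod (2 * l))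
      (AddChar.zmodChar (2 * l) h1) (AddChar.zmodChar l h2) (AddChar.zmodChar (2 * l) h3) := by
  have hodd : Odd l := (Fact.out : l.Prime).odd_of_ne_two (by omega)
  have pr : IsPrimitiveRoot g (2 * l) := go ▸ IsPrimitiveRoot.orderOf g
  refine ⟨gp_zmod hl, hp, fun i j h => ?_, ?_, fun i => ?_, ?_, ?_, fun i => ?_⟩
  · exact ZMod.val_injective _ (pr.pow_inj (ZMod.val_lt i) (ZMod.val_lt j) h)
  · rw [AddChar.zmodChar_apply', gl]
  · change AddChar.zmodChar l h2 (ZMod.castHom (dvd_mul_left l 2) (ZMod l) i) = _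
    rw [← ZMod.natCast_zmod_val i, map_natCast, AddChar.zmodChar_apply', AddChar.zmodChar_apply',
      pow_right_comm]
  · exact AddChar.zmodChar_primitive_of_primitive_root l (pr.pow (by omega) rfl)
  · rw [AddChar.zmodChar_apply', hodd.neg_one_pow]
  · rw [AddChar.zmodChar_apply, AddChar.zmodChar_apply, pow_right_comm, gl]
    push_cast; rfl

lemma Fl.prod_conv {A : Type*} [AddCommGroup A] [Fintype A] [DecidableEq A] {π : A →+ ZMod l}
    {o : A} {e : AddChar A (ZMod p)} {ex : AddChar (ZMod l) (ZMod p)} {sg : AddChar A ℤ}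
    (G : Fl π o e ex sg) (x : ZMod p) (hx : ∀ a : ℕ, ex a = x ^ a) (k : ℕ) (hk : 1 ≤ k) :
    ∏ i ∈ univ.erase 0, ((1 - e i) ^ 2) ^ (π i ^ k).val =
      (∏ a ∈ Ico 1 l, (1 - x ^ a) ^ (a ^ k)) ^ 2 := by
  have k0 : k ≠ 0 := by omega
  rw [prod_erase _ (by simp [k0]), ← prod_fiberwise univ π,
    ← prod_erase (a := 0) univ (prod_eq_one fun i hi => by simp [(mem_filter.1 hi).2, k0]),
    ← prod_pow]
  symm
  refine prod_nbij' (fun a => (a : ZMod l)) (fun c => c.val) (fun a ha => ?_) (fun c hc => ?_)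
    (fun a ha => ZMod.val_cast_of_lt (mem_Ico.1 ha).2) (fun c _ => ZMod.natCast_zmod_val c)
    (fun a ha => ?_)
  · obtain ⟨a1, a2⟩ := mem_Ico.1 ha
    exact mem_erase.2 ⟨fun e => absurd (Nat.le_of_dvd a1 ((ZMod.natCast_eq_zero_iff _ _).1 e))
      (by omega), mem_univ _⟩
  · exact mem_Ico.2 ⟨Nat.pos_of_ne_zero ((ZMod.val_ne_zero _).2 (ne_of_mem_erase hc)),
      ZMod.val_lt c⟩
  · obtain ⟨a1, a2⟩ := mem_Ico.1 ha
    obtain ⟨j, hj⟩ := G.surj a
    have hf : univ.filter (fun i => π i = π j) = {j, j + o} := by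
      ext i
      simp only [mem_filter, mem_univ, true_and, mem_insert, mem_singleton]
      rw [← sub_eq_zero, ← map_sub, G.ker, sub_eq_zero, sub_eq_iff_eq_add']
    have h0 : 1 - x ^ a ≠ 0 := by
      intro e0
      have : (a : ZMod l) = 0 := ex_inj G.prim (by
        rw [hx, ex.map_zero_eq_one]; linear_combination -e0)
      exact absurd (Nat.le_of_dvd a1 ((ZMod.natCast_eq_zero_iff _ _).1 this)) (by omega)
    have h1 : ((1 - x ^ a) ^ 2) ^ l = 1 := by
      rw [← pow_mul, show 2 * l = p - 1 by rw [G.hp]; rfl, ZMod.pow_card_sub_one_eq_one h0]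
    rw [← hj, hf, prod_pair (by simpa using G.o0), π.map_add, G.po, add_zero, ← mul_pow,
      e.map_add_eq_mul, G.eo, hj, ← Nat.cast_pow, ZMod.val_natCast, pow_right_comm,
      pow_eq_pow_mod _ h1, ← hx, ← hj, G.exπ]
    congr 1
    ring

lemma transfer (n N : ℕ) (hN : n + 1 = N) (f : Equiv.Perm (Fin n))
    (hS : ∀ s t : ℕ, ∀ i j k l : Fin n, i ≠ j → k ≠ l →
        (((((i : ℕ) + 1 + s) % (n + 1) : ℕ) : ℤ) - ((((j : ℕ) + 1 + s) % (n + 1) : ℕ) : ℤ)
            = ((((k : ℕ) + 1 + s) % (n + 1) : ℕ) : ℤ) - ((((l : ℕ) + 1 + s) % (n + 1) : ℕ) : ℤ) ∧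
         ((((f i : ℕ) + 1 + t) % (n + 1) : ℕ) : ℤ) - ((((f j : ℕ) + 1 + t) % (n + 1) : ℕ) : ℤ)
            = ((((f k : ℕ) + 1 + t) % (n + 1) : ℕ) : ℤ) - ((((f l : ℕ) + 1 + t) % (n + 1) : ℕ) : ℤ)) →
        i = k ∧ j = l) :
    ∃ F : ZMod N ≃ ZMod N, Ws F ∧
      (∀ i : Fin n, F (((i : ℕ) + 1 : ℕ) : ZMod N) = (((f i : ℕ) + 1 : ℕ) : ZMod N)) ∧
      (∀ a : ZMod N, a ≠ 0 → ∃ i : Fin n, a = (((i : ℕ) + 1 : ℕ) : ZMod N)) ∧
      ∀ i : Fin n, (((i : ℕ) + 1 : ℕ) : ZMod N) ≠ 0 := by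
  subst hN
  have vl : ∀ i : Fin n, (((i : ℕ) + 1 : ℕ) : ZMod (n + 1)).val = i + 1 :=
    fun i => ZMod.val_cast_of_lt (by omega)
  have nz : ∀ i : Fin n, (((i : ℕ) + 1 : ℕ) : ZMod (n + 1)) ≠ 0 := by
    intro i e
    have := vl i
    rw [e, ZMod.val_zero] at this
    omega
  have sj : ∀ a : ZMod (n + 1), a ≠ 0 → ∃ i : Fin n, a = (((i : ℕ) + 1 : ℕ) : ZMod (n + 1)) := by
    intro a ha
    have h1 := ZMod.val_lt a
    have h2 := (ZMod.val_ne_zero a).2 ha
    refine ⟨⟨a.val - 1, by omega⟩, ?_⟩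
    rw [show a.val - 1 + 1 = a.val by omega, ZMod.natCast_zmod_val]
  let ι : Fin n ≃ {a : ZMod (n + 1) // a ≠ 0} := Equiv.ofBijective (fun i => ⟨_, nz i⟩)
    ⟨fun i j h => by
      have := congrArg (fun a : {a : ZMod (n + 1) // a ≠ 0} => a.1.val) h
      simp only [vl] at this
      exact Fin.ext (by omega),
    fun a => by
      obtain ⟨i, hi⟩ := sj a.1 a.2
      exact ⟨i, Subtype.ext hi.symm⟩⟩
  have hF : ∀ i : Fin n, f.extendDomain ι (((i : ℕ) + 1 : ℕ) : ZMod (n + 1)) =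
      (((f i : ℕ) + 1 : ℕ) : ZMod (n + 1)) := fun i => f.extendDomain_apply_image ι i
  refine ⟨f.extendDomain ι, ⟨f.extendDomain_apply_not_subtype ι (by simp),
    fun a b c d ha hb hc hd hab e1 e2 => ?_⟩, hF, sj, nz⟩
  obtain ⟨i, rfl⟩ := sj a ha
  obtain ⟨j, rfl⟩ := sj b hb
  obtain ⟨k, rfl⟩ := sj c hc
  obtain ⟨m, rfl⟩ := sj d hd
  have hij : i ≠ j := by rintro rfl; exact hab rfl
  have hkm : k ≠ m := by rintro rfl; exact hab (by rwa [sub_self, sub_eq_zero] at e1)
  by_cases hex : m = i ∧ k = j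
  · right; rw [hex.1, hex.2]; exact ⟨rfl, rfl⟩
  left
  rw [hF, hF, hF, hF] at e2
  rw [sub_eq_sub_iff_add_eq_add, ← Nat.cast_add, ← Nat.cast_add,
    ZMod.natCast_eq_natCast_iff] at e1 e2
  obtain ⟨s, hs⟩ := shift (n + 1) _ _ _ _ (by omega) (by omega) (by omega) (by omega) e1
    (fun hh => hex ⟨Fin.ext (by omega), Fin.ext (by omega)⟩)
  obtain ⟨t, ht⟩ := shift (n + 1) _ _ _ _ (by omega) (by omega) (by omega) (by omega) e2
    (fun hh => hex ⟨f.injective (Fin.ext (by omega)), f.injective (Fin.ext (by omega))⟩)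
  rw [(hS s t i j k m hij hkm ⟨hs, ht⟩).1]

end Pool.Agent.MP_dcfa1b_co.Sp

end

section

set_option autoImplicit false

namespace Pool.Agent.MP_dcfa1b_co.Sp

/-- Let `l ≥ 5` and `p = 2 l + 1` be primes such that for every even `k` with `2 ≤ k ≤ l - 3` the
product of the `(1 - 4 ^ a) ^ (a ^ k)`, `1 ≤ a < l`, is not `± 1` modulo `p`. A permutation array
of order `p - 2` with the shift property (S) which is symmetric, or more generally satisfies
`f (a) - f (-a) ≡ d a (mod l)` for some `d`, is a Golomb array. -/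
theorem safePrime_or :
    ∀ l : ℕ, 5 ≤ l → l.Prime → (2 * l + 1).Prime →
      (∀ k : ℕ, Even k → 2 ≤ k → k + 3 ≤ l →
        (∏ a ∈ Finset.Ico 1 l, (1 - (4 : ZMod (2 * l + 1)) ^ a) ^ (a ^ k)) ^ 2 ≠ 1) →
    ∀ (n : ℕ) (f : Equiv.Perm (Fin n)), n + 1 = 2 * l →
      (∀ s t : ℕ, ∀ i j k l : Fin n, i ≠ j → k ≠ l →
        (((((i : ℕ) + 1 + s) % (n + 1) : ℕ) : ℤ) - ((((j : ℕ) + 1 + s) % (n + 1) : ℕ) : ℤ)
            = ((((k : ℕ) + 1 + s) % (n + 1) : ℕ) : ℤ) - ((((l : ℕ) + 1 + s) % (n + 1) : ℕ) : ℤ) ∧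
         ((((f i : ℕ) + 1 + t) % (n + 1) : ℕ) : ℤ) - ((((f j : ℕ) + 1 + t) % (n + 1) : ℕ) : ℤ)
            = ((((f k : ℕ) + 1 + t) % (n + 1) : ℕ) : ℤ) - ((((f l : ℕ) + 1 + t) % (n + 1) : ℕ) : ℤ)) →
        i = k ∧ j = l) →
      ((∀ i : Fin n, f (f i) = i) ∨ ∃ d : ℤ, ∀ i : Fin n,
        ((f i : ℕ) : ℤ) - ((f (Fin.rev i) : ℕ) : ℤ) ≡ d * (((i : ℕ) : ℤ) + 1) [ZMOD l]) →
      ∃ (F : Type) (_ : Field F) (_ : Fintype F), Fintype.card F = n + 2 ∧
        ∃ α β : F, orderOf α = n + 1 ∧ orderOf β = n + 1 ∧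
          ∀ i : Fin n, α ^ ((i : ℕ) + 1) + β ^ ((f i : ℕ) + 1) = 1 := by
  intro l hl hlp hp hR n f hn hS hH
  have : Fact l.Prime := ⟨hlp⟩
  have : Fact (2 * l + 1).Prime := ⟨hp⟩
  have : NeZero (2 * l) := ⟨by omega⟩
  obtain ⟨g, g2, gl, go⟩ := exists_gen (l := l) (p := 2 * l + 1) (by omega) rfl
  have h1 : g ^ (2 * l) = 1 := by have := pow_orderOf_eq_one g; rwa [go] at this
  have h2 : (g ^ 2) ^ l = 1 := by rw [← pow_mul, h1]
  have h3 : (-1 : ℤ) ^ (2 * l) = 1 := by rw [pow_mul]; simp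
  have G := fl_zmod (by omega) rfl gl go h1 h2 h3
  have reg := G.reg fun k hke hk hk2 => by
    rw [G.prod_conv 4 (fun a => by rw [AddChar.zmodChar_apply', g2]) k (by omega)]
    exact hR k hke hk hk2
  obtain ⟨F, hW, hF, sj, nz⟩ := transfer n (2 * l) hn f hS
  have sd := hW.sd G.sum G.toGp.two
  set π := (ZMod.castHom (dvd_mul_left l 2) (ZMod l)).toAddMonoidHom with hπ
  obtain ⟨d, H⟩ : ∃ d : ZMod l, ∀ a, π (F a) - π (F (-a)) = d * π a := by
    rcases hH with hs | ⟨d, hd⟩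
    · refine ⟨1, G.toGp.symmetric hl sd fun a => ?_⟩
      by_cases ha : a = 0
      · rw [ha, sd.1, sd.1]
      · obtain ⟨i, rfl⟩ := sj a ha
        rw [hF, hF, hs]
    · refine ⟨d, fun a => ?_⟩
      by_cases ha : a = 0
      · simp [ha]
      · obtain ⟨i, rfl⟩ := sj a ha
        have pn : ∀ m : ℕ, π (m : ZMod (2 * l)) = m := fun m =>
          map_natCast (ZMod.castHom (dvd_mul_left l 2) (ZMod l)) m
        have : -(((i : ℕ) + 1 : ℕ) : ZMod (2 * l)) = (((Fin.rev i : ℕ) + 1 : ℕ) : ZMod (2 * l)) := by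
          rw [neg_eq_iff_add_eq_zero, ← Nat.cast_add, Fin.val_rev,
            show (i : ℕ) + 1 + (n - (i + 1) + 1) = 2 * l by omega, ZMod.natCast_self]
        have h4 := (ZMod.intCast_eq_intCast_iff _ _ l).2 (hd i)
        rw [this, hF, hF, pn, pn, pn]
        push_cast at h4 ⊢
        linear_combination h4
  obtain ⟨t, s, ht, hs, h⟩ := G.golomb reg sd H
  have ord : ∀ t : ℕ, Odd t ∧ (t : ZMod l) ≠ 0 → orderOf (g ^ t) = n + 1 := by
    intro t ht
    rw [Nat.Coprime.orderOf_pow, go, hn]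
    rw [go]
    exact Nat.Coprime.mul_left (Nat.coprime_two_left.2 ht.1)
      ((Nat.Prime.coprime_iff_not_dvd hlp).2 fun e => ht.2 ((ZMod.natCast_eq_zero_iff _ _).2 e))
  refine ⟨ZMod (2 * l + 1), inferInstance, inferInstance, by rw [ZMod.card]; omega, g ^ t, g ^ s,
    ord t ht, ord s hs, fun i => ?_⟩
  have := h _ (nz i)
  rwa [hF, AddChar.zmodChar_apply', AddChar.zmodChar_apply', pow_right_comm, pow_right_comm g _ s]
    at this

end Pool.Agent.MP_dcfa1b_co.Sp

end
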